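import Mathlib

namespace Pool.Agent.S08340

open Set Relation

/-- One level of the construction: a graph with vertices `V` and edges `E`, the two ends of each
edge, and for each end of each edge a family of admissible sets of cells and a number. -/
structure Lev where
  V : Type
  E : Type
  bd : E → Bool → V
  fam : E → Bool → Set (Set (V ⊕ E))
  rt : E → Bool → ℕ

/-- Cells: vertices and edges. -/
abbrev Lev.X (L : Lev) : Type := L.V ⊕ L.E

/-- Incidence of cells. -/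
def Lev.adj (L : Lev) : L.X → L.X → Prop
  | Sum.inl v, Sum.inr e => ∃ s, L.bd e s = v
  | Sum.inr e, Sum.inl v => ∃ s, L.bd e s = v
  | _, _ => False

/-- Equal or incident. -/
def Lev.near (L : Lev) (a b : L.X) : Prop := a = b ∨ L.adj a b

theorem Lev.adj_symm {L : Lev} {a b : L.X} (h : L.adj a b) : L.adj b a := by
  rcases a with v | e <;> rcases b with w | e' <;> exact h

theorem Lev.near_symm {L : Lev} {a b : L.X} (h : L.near a b) : L.near b a := by
  rcases h with h | h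
  · exact Or.inl h.symm
  · exact Or.inr (Lev.adj_symm h)

theorem Lev.near_refl {L : Lev} (a : L.X) : L.near a a := Or.inl rfl

/-- A walk covering the sets `D false`, `D true` and the edge `e`. -/
def Lev.IsTour (L : Lev) (e : L.E) (D : Bool → Set L.X) (T : ℕ) (x : ℕ → L.X) : Prop :=
  x 0 = Sum.inl (L.bd e false) ∧ x T = Sum.inl (L.bd e true) ∧
    (∀ i < T, L.adj (x i) (x (i + 1))) ∧
    (∀ i ≤ T, x i ∈ D false ∨ x i ∈ D true ∨ x i = Sum.inr e) ∧
    (∀ c, (c ∈ D false ∨ c ∈ D true ∨ c = Sum.inr e) → ∃ i ≤ T, x i = c)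

/-- The strands replacing the edges. -/
structure Lev.Strand (L : Lev) (N : ℕ) where
  e : L.E
  D : Bool → Set L.X
  i : Bool → Fin N
  mem : ∀ s, D s ∈ L.fam e s
  bdm : ∀ s, Sum.inl (L.bd e s) ∈ D s
  tour : ∃ p : ℕ × (ℕ → L.X), L.IsTour e D p.1 p.2

noncomputable def Lev.Strand.T {L : Lev} {N : ℕ} (σ : L.Strand N) : ℕ := (Classical.choose σ.tour).1

noncomputable def Lev.Strand.x {L : Lev} {N : ℕ} (σ : L.Strand N) : ℕ → L.X :=
  (Classical.choose σ.tour).2

theorem Lev.Strand.isTour {L : Lev} {N : ℕ} (σ : L.Strand N) : L.IsTour σ.e σ.D σ.T σ.x :=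
  Classical.choose_spec σ.tour

section next
variable (n : ℕ) (L : Lev) (N : ℕ)

/-- New vertices. -/
abbrev NV : Type := (L.V × Fin N) ⊕ (Σ σ : L.Strand N, Fin σ.T)
/-- New edges. -/
abbrev NE : Type := (L.V × {p : Fin N × Fin N // p.1 < p.2}) ⊕ (Σ σ : L.Strand N, Fin (σ.T + 1))

variable {L N}

noncomputable def nbd : NE L N → Bool → NV L N
  | Sum.inl (v, p), false => Sum.inl (v, p.1.1)
  | Sum.inl (v, p), true => Sum.inl (v, p.1.2)
  | Sum.inr ⟨σ, j⟩, false =>
      if h : j.1 = 0 then Sum.inl (L.bd σ.e false, σ.i false)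
      else Sum.inr ⟨σ, ⟨j.1 - 1, by have := j.2; omega⟩⟩
  | Sum.inr ⟨σ, j⟩, true =>
      if h : j.1 < σ.T then Sum.inr ⟨σ, ⟨j.1, h⟩⟩
      else Sum.inl (L.bd σ.e true, σ.i true)

/-- The extension of a set of cells to the next level, with some colours removed. -/
def Ext (D : Set L.X) (r : Finset (Fin N)) : Set (NV L N ⊕ NE L N) := {c |
  match c with
  | Sum.inl (Sum.inl (v, i)) => Sum.inl v ∈ D ∧ i ∉ r
  | Sum.inr (Sum.inl (v, p)) => Sum.inl v ∈ D ∧ p.1.1 ∉ r ∧ p.1.2 ∉ r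
  | Sum.inl (Sum.inr ⟨σ, _⟩) => Sum.inr σ.e ∈ D ∧ ∀ s, σ.D s ⊆ D ∧ σ.i s ∉ r
  | Sum.inr (Sum.inr ⟨σ, _⟩) => Sum.inr σ.e ∈ D ∧ ∀ s, σ.D s ⊆ D ∧ σ.i s ∉ r}

/-- The family of all extensions with at most `b` colours removed. -/
def ExtFam (A : Set (Set L.X)) (b : ℕ) : Set (Set (NV L N ⊕ NE L N)) :=
  {C | ∃ D ∈ A, ∃ r : Finset (Fin N), r.card ≤ b ∧ C = Ext D r}

open Classical in
noncomputable def nfam : NE L N → Bool → Set (Set (NV L N ⊕ NE L N))
  | Sum.inl q, s => {{Sum.inl (nbd (Sum.inl q) s)}}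
  | Sum.inr ⟨σ, j⟩, false =>
      if j.1 = 0 then ExtFam (L.fam σ.e false) (2 ^ L.rt σ.e false)
      else {{Sum.inl (nbd (Sum.inr ⟨σ, j⟩) false)}}
  | Sum.inr ⟨σ, j⟩, true =>
      if j.1 < σ.T then {{Sum.inl (nbd (Sum.inr ⟨σ, j⟩) true)}}
      else ExtFam (L.fam σ.e true) (2 ^ L.rt σ.e true)

open Classical in
noncomputable def nrt : NE L N → Bool → ℕ
  | Sum.inl _, _ => n + 1
  | Sum.inr ⟨σ, j⟩, false => if j.1 = 0 then L.rt σ.e false else n + 1
  | Sum.inr ⟨σ, j⟩, true => if j.1 < σ.T then n + 1 else L.rt σ.e true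

variable (L N)

/-- The next level. -/
noncomputable def next : Lev where
  V := NV L N
  E := NE L N
  bd := nbd
  fam := nfam
  rt := nrt n

variable {n L N}

/-- The projection to the previous level. -/
noncomputable def fm : (next n L N).X → L.X
  | Sum.inl (Sum.inl (v, _)) => Sum.inl v
  | Sum.inr (Sum.inl (v, _)) => Sum.inl v
  | Sum.inl (Sum.inr ⟨σ, j⟩) => σ.x (j.1 + 1)
  | Sum.inr (Sum.inr ⟨σ, j⟩) => σ.x j.1

/-- The parent. -/
def par : (next n L N).X → L.X
  | Sum.inl (Sum.inl (v, _)) => Sum.inl v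
  | Sum.inr (Sum.inl (v, _)) => Sum.inl v
  | Sum.inl (Sum.inr ⟨σ, _⟩) => Sum.inr σ.e
  | Sum.inr (Sum.inr ⟨σ, _⟩) => Sum.inr σ.e

/-- Middle vertices and strand edges as cells. -/
def mid (n : ℕ) (σ : L.Strand N) (j : ℕ) (h : j < σ.T) : (next n L N).X :=
  Sum.inl (Sum.inr ⟨σ, ⟨j, h⟩⟩)

def edg (n : ℕ) (σ : L.Strand N) (j : ℕ) (h : j ≤ σ.T) : (next n L N).X :=
  Sum.inr (Sum.inr ⟨σ, ⟨j, Nat.lt_succ_of_le h⟩⟩)

/-- Core vertices as cells. -/
def hub (n : ℕ) (v : L.V) (i : Fin N) : (next n L N).X := Sum.inl (Sum.inl (v, i))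

/-- Core edges as cells. -/
def hed (n : ℕ) (v : L.V) (p : {p : Fin N × Fin N // p.1 < p.2}) : (next n L N).X :=
  Sum.inr (Sum.inl (v, p))

theorem cell_cases (c : (next n L N).X) :
    (∃ v i, c = hub n v i) ∨ (∃ v p, c = hed n v p) ∨ (∃ σ j h, c = mid n σ j h) ∨
      (∃ σ j h, c = edg n σ j h) := by
  rcases c with (⟨v, i⟩ | ⟨σ, ⟨j, h⟩⟩) | (⟨v, p⟩ | ⟨σ, ⟨j, h⟩⟩)
  · exact Or.inl ⟨v, i, rfl⟩
  · exact Or.inr (Or.inr (Or.inl ⟨σ, j, h, rfl⟩))
  · exact Or.inr (Or.inl ⟨v, p, rfl⟩)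
  · exact Or.inr (Or.inr (Or.inr ⟨σ, j, Nat.le_of_lt_succ h, rfl⟩))

@[simp] theorem fm_hub (v : L.V) (i : Fin N) : fm (hub n v i) = Sum.inl v := rfl
@[simp] theorem fm_hed (v : L.V) (p) : fm (hed (N := N) n v p) = Sum.inl v := rfl
@[simp] theorem fm_mid (σ : L.Strand N) (j h) : fm (mid n σ j h) = σ.x (j + 1) := rfl
@[simp] theorem fm_edg (σ : L.Strand N) (j h) : fm (edg n σ j h) = σ.x j := rfl
@[simp] theorem par_hub (v : L.V) (i : Fin N) : par (hub n v i) = Sum.inl v := rfl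
@[simp] theorem par_hed (v : L.V) (p) : par (hed (N := N) n v p) = Sum.inl v := rfl
@[simp] theorem par_mid (σ : L.Strand N) (j h) : par (mid n σ j h) = Sum.inr σ.e := rfl
@[simp] theorem par_edg (σ : L.Strand N) (j h) : par (edg n σ j h) = Sum.inr σ.e := rfl

theorem mem_ext_hub {D : Set L.X} {r : Finset (Fin N)} {v : L.V} {i : Fin N} :
    (hub n v i : (next n L N).X) ∈ Ext D r ↔ Sum.inl v ∈ D ∧ i ∉ r := Iff.rfl

theorem mem_ext_hed {D : Set L.X} {r : Finset (Fin N)} {v : L.V} {p} :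
    (hed n v p : (next n L N).X) ∈ Ext D r ↔ Sum.inl v ∈ D ∧ p.1.1 ∉ r ∧ p.1.2 ∉ r := Iff.rfl

theorem mem_ext_mid {D : Set L.X} {r : Finset (Fin N)} {σ : L.Strand N} {j h} :
    (mid n σ j h : (next n L N).X) ∈ Ext D r ↔
      Sum.inr σ.e ∈ D ∧ ∀ s, σ.D s ⊆ D ∧ σ.i s ∉ r := Iff.rfl

theorem mem_ext_edg {D : Set L.X} {r : Finset (Fin N)} {σ : L.Strand N} {j h} :
    (edg n σ j h : (next n L N).X) ∈ Ext D r ↔
      Sum.inr σ.e ∈ D ∧ ∀ s, σ.D s ⊆ D ∧ σ.i s ∉ r := Iff.rfl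

/-- Incidence at a core vertex. -/
theorem adj_hub {v : L.V} {i : Fin N} {c : (next n L N).X} :
    (next n L N).adj (hub n v i) c ↔
      (∃ p, c = hed n v p ∧ (p.1.1 = i ∨ p.1.2 = i)) ∨
      (∃ σ : L.Strand N, c = edg n σ 0 (Nat.zero_le _) ∧ L.bd σ.e false = v ∧ σ.i false = i) ∨
      (∃ σ : L.Strand N, c = edg n σ σ.T le_rfl ∧ L.bd σ.e true = v ∧ σ.i true = i) := by
  constructor
  · intro h
    rcases c with c | (⟨w, p⟩ | ⟨σ, j⟩)
    · exact h.elim
    · obtain ⟨s, hs⟩ := h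
      left
      cases s
      · have h1 : (Sum.inl (w, p.1.1) : NV L N) = Sum.inl (v, i) := hs
        have h2 := Sum.inl.inj h1
        have h3 : w = v := congrArg Prod.fst h2
        have h4 : p.1.1 = i := congrArg Prod.snd h2
        subst h3
        exact ⟨p, rfl, Or.inl h4⟩
      · have h1 : (Sum.inl (w, p.1.2) : NV L N) = Sum.inl (v, i) := hs
        have h2 := Sum.inl.inj h1
        have h3 : w = v := congrArg Prod.fst h2
        have h4 : p.1.2 = i := congrArg Prod.snd h2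
        subst h3
        exact ⟨p, rfl, Or.inr h4⟩
    · obtain ⟨s, hs⟩ := h
      right
      obtain ⟨j, hj⟩ := j
      cases s
      · left
        have h1 : nbd (Sum.inr ⟨σ, ⟨j, hj⟩⟩ : NE L N) false = Sum.inl (v, i) := hs
        by_cases h0 : j = 0
        · subst h0
          have h2 : (Sum.inl (L.bd σ.e false, σ.i false) : NV L N) = Sum.inl (v, i) := by
            rw [← h1]; simp [nbd]
          have h3 := Sum.inl.inj h2
          exact ⟨σ, rfl, congrArg Prod.fst h3, congrArg Prod.snd h3⟩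
        · simp [nbd, h0] at h1
      · right
        have h1 : nbd (Sum.inr ⟨σ, ⟨j, hj⟩⟩ : NE L N) true = Sum.inl (v, i) := hs
        by_cases h0 : j < σ.T
        · simp [nbd, h0] at h1
        · have hjT : j = σ.T := by omega
          subst hjT
          have h2 : (Sum.inl (L.bd σ.e true, σ.i true) : NV L N) = Sum.inl (v, i) := by
            rw [← h1]; simp [nbd]
          have h3 := Sum.inl.inj h2
          exact ⟨σ, rfl, congrArg Prod.fst h3, congrArg Prod.snd h3⟩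
  · rintro (⟨p, rfl, h | h⟩ | ⟨σ, rfl, h1, h2⟩ | ⟨σ, rfl, h1, h2⟩)
    · exact ⟨false, by rw [← h]; rfl⟩
    · exact ⟨true, by rw [← h]; rfl⟩
    · refine ⟨false, ?_⟩
      show nbd (Sum.inr ⟨σ, ⟨0, Nat.succ_pos _⟩⟩ : NE L N) false = Sum.inl (v, i)
      simp [nbd, h1, h2]
    · refine ⟨true, ?_⟩
      show nbd (Sum.inr ⟨σ, ⟨σ.T, _⟩⟩ : NE L N) true = Sum.inl (v, i)
      simp [nbd, h1, h2]

/-- Incidence at a middle vertex. -/
theorem adj_mid {σ : L.Strand N} {j : ℕ} {h : j < σ.T} {c : (next n L N).X} :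
    (next n L N).adj (mid n σ j h) c ↔ c = edg n σ j h.le ∨ c = edg n σ (j + 1) h := by
  constructor
  · intro hc
    rcases c with c | (⟨w, p⟩ | ⟨τ, k, hk⟩)
    · exact hc.elim
    · obtain ⟨s, hs⟩ := hc
      cases s
      · have h1 : (Sum.inl (w, p.1.1) : NV L N) = Sum.inr ⟨σ, ⟨j, h⟩⟩ := hs
        cases h1
      · have h1 : (Sum.inl (w, p.1.2) : NV L N) = Sum.inr ⟨σ, ⟨j, h⟩⟩ := hs
        cases h1
    · obtain ⟨s, hs⟩ := hc
      cases s
      · right
        have h1 : nbd (Sum.inr ⟨τ, ⟨k, hk⟩⟩ : NE L N) false = Sum.inr ⟨σ, ⟨j, h⟩⟩ := hs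
        by_cases h0 : k = 0
        · simp [nbd, h0] at h1
        · simp only [nbd, h0, dif_neg, not_false_eq_true] at h1
          have h2 := Sum.inr.inj h1
          obtain ⟨h3, h4⟩ := Sigma.mk.inj h2
          subst h3
          have h5 := congrArg Fin.val (eq_of_heq h4)
          simp only at h5
          have h6 : k = j + 1 := by omega
          subst h6
          rfl
      · left
        have h1 : nbd (Sum.inr ⟨τ, ⟨k, hk⟩⟩ : NE L N) true = Sum.inr ⟨σ, ⟨j, h⟩⟩ := hs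
        by_cases h0 : k < τ.T
        · simp only [nbd, h0, dif_pos] at h1
          have h2 := Sum.inr.inj h1
          obtain ⟨h3, h4⟩ := Sigma.mk.inj h2
          subst h3
          have h5 := congrArg Fin.val (eq_of_heq h4)
          simp only at h5
          subst h5
          rfl
        · simp [nbd, h0] at h1
  · rintro (rfl | rfl)
    · refine ⟨true, ?_⟩
      show nbd (Sum.inr ⟨σ, ⟨j, _⟩⟩ : NE L N) true = Sum.inr ⟨σ, ⟨j, h⟩⟩
      simp [nbd, h]
    · refine ⟨false, ?_⟩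
      show nbd (Sum.inr ⟨σ, ⟨j + 1, _⟩⟩ : NE L N) false = Sum.inr ⟨σ, ⟨j, h⟩⟩
      simp [nbd]

/-- Incidence at a core edge. -/
theorem adj_hed {v : L.V} {p : {p : Fin N × Fin N // p.1 < p.2}} {c : (next n L N).X} :
    (next n L N).adj (hed n v p) c ↔ c = hub n v p.1.1 ∨ c = hub n v p.1.2 := by
  constructor
  · intro hc
    rcases c with c | c
    · obtain ⟨s, hs⟩ := hc
      cases s
      · left; rw [← hs]; rfl
      · right; rw [← hs]; rfl
    · exact hc.elim
  · rintro (rfl | rfl)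
    · exact ⟨false, rfl⟩
    · exact ⟨true, rfl⟩

/-- Incidence at a strand edge. -/
theorem adj_edg {σ : L.Strand N} {j : ℕ} {h : j ≤ σ.T} {c : (next n L N).X} :
    (next n L N).adj (edg n σ j h) c ↔
      (j = 0 ∧ c = hub n (L.bd σ.e false) (σ.i false)) ∨
      (∃ h' : j - 1 < σ.T, j ≠ 0 ∧ c = mid n σ (j - 1) h') ∨
      (∃ h' : j < σ.T, c = mid n σ j h') ∨
      (j = σ.T ∧ c = hub n (L.bd σ.e true) (σ.i true)) := by
  constructor
  · intro hc
    rcases c with c | c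
    · obtain ⟨s, hs⟩ := hc
      cases s
      · have h1 : nbd (Sum.inr ⟨σ, ⟨j, Nat.lt_succ_of_le h⟩⟩ : NE L N) false = c := hs
        by_cases h0 : j = 0
        · left
          refine ⟨h0, ?_⟩
          rw [← h1]
          simp only [nbd, h0, dif_pos]
          rfl
        · right; left
          refine ⟨by omega, h0, ?_⟩
          rw [← h1]
          simp only [nbd, h0, dif_neg, not_false_eq_true]
          rfl
      · have h1 : nbd (Sum.inr ⟨σ, ⟨j, Nat.lt_succ_of_le h⟩⟩ : NE L N) true = c := hs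
        by_cases h0 : j < σ.T
        · right; right; left
          refine ⟨h0, ?_⟩
          rw [← h1]
          simp only [nbd, h0, dif_pos]
          rfl
        · right; right; right
          refine ⟨by omega, ?_⟩
          rw [← h1]
          simp only [nbd, h0, dif_neg, not_false_eq_true]
          rfl
    · exact hc.elim
  · rintro (⟨rfl, rfl⟩ | ⟨h', h0, rfl⟩ | ⟨h', rfl⟩ | ⟨rfl, rfl⟩)
    · refine ⟨false, ?_⟩
      show nbd (Sum.inr ⟨σ, ⟨0, Nat.succ_pos _⟩⟩ : NE L N) false = _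
      simp [nbd]
    · refine ⟨false, ?_⟩
      show nbd (Sum.inr ⟨σ, ⟨j, _⟩⟩ : NE L N) false = _
      simp [nbd, h0]
    · refine ⟨true, ?_⟩
      show nbd (Sum.inr ⟨σ, ⟨j, _⟩⟩ : NE L N) true = _
      simp [nbd, h']
    · refine ⟨true, ?_⟩
      show nbd (Sum.inr ⟨σ, ⟨σ.T, _⟩⟩ : NE L N) true = _
      simp [nbd]

/-- Two cells which are both near a third one have near images. -/
theorem fm_star {a b c : (next n L N).X} (h1 : (next n L N).near a c)
    (h2 : (next n L N).near c b) : L.near (fm a) (fm b) := by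
  have key : ∃ y z : L.X, L.near y z ∧ ∀ d, (next n L N).near c d → fm d = y ∨ fm d = z := by
    rcases cell_cases c with ⟨v, i, rfl⟩ | ⟨v, p, rfl⟩ | ⟨σ, j, h, rfl⟩ | ⟨σ, j, h, rfl⟩
    · refine ⟨Sum.inl v, Sum.inl v, Or.inl rfl, ?_⟩
      rintro d (rfl | hd)
      · exact Or.inl rfl
      · rw [adj_hub] at hd
        left
        rcases hd with ⟨p, rfl, _⟩ | ⟨σ, rfl, h, _⟩ | ⟨σ, rfl, h, _⟩
        · rfl
        · rw [fm_edg, σ.isTour.1, h]
        · rw [fm_edg, σ.isTour.2.1, h]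
    · refine ⟨Sum.inl v, Sum.inl v, Or.inl rfl, ?_⟩
      rintro d (rfl | hd)
      · exact Or.inl rfl
      · rw [adj_hed] at hd
        left
        rcases hd with rfl | rfl <;> rfl
    · refine ⟨σ.x j, σ.x (j + 1), Or.inr (σ.isTour.2.2.1 j h), ?_⟩
      rintro d (rfl | hd)
      · right; rfl
      · rw [adj_mid] at hd
        rcases hd with rfl | rfl
        · left; rfl
        · right; rfl
    · by_cases hj : j < σ.T
      · refine ⟨σ.x j, σ.x (j + 1), Or.inr (σ.isTour.2.2.1 j hj), ?_⟩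
        rintro d (rfl | hd)
        · left; rfl
        · rw [adj_edg] at hd
          rcases hd with ⟨rfl, rfl⟩ | ⟨h', h0, rfl⟩ | ⟨h', rfl⟩ | ⟨rfl, rfl⟩
          · left; rw [fm_hub, σ.isTour.1]
          · left; rw [fm_mid]; congr 1; omega
          · right; rfl
          · omega
      · have hjT : j = σ.T := by omega
        refine ⟨σ.x j, σ.x j, Or.inl rfl, ?_⟩
        rintro d (rfl | hd)
        · left; rfl
        · rw [adj_edg] at hd
          left
          rcases hd with ⟨rfl, rfl⟩ | ⟨h', h0, rfl⟩ | ⟨h', rfl⟩ | ⟨rfl, rfl⟩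
          · rw [fm_hub, σ.isTour.1]
          · rw [fm_mid]; congr 1; omega
          · omega
          · rw [fm_hub, σ.isTour.2.1]
  obtain ⟨y, z, hyz, hd⟩ := key
  rcases hd a (Lev.near_symm h1) with ha | ha <;> rcases hd b h2 with hb | hb
  · rw [ha, hb]; exact Or.inl rfl
  · rw [ha, hb]; exact hyz
  · rw [ha, hb]; exact Lev.near_symm hyz
  · rw [ha, hb]; exact Or.inl rfl

theorem fm_near {a b : (next n L N).X} (h : (next n L N).near a b) : L.near (fm a) (fm b) :=
  fm_star h (Lev.near_refl b)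

theorem par_near {a b : (next n L N).X} (h : (next n L N).near a b) : L.near (par a) (par b) := by
  rcases h with rfl | h
  · exact Or.inl rfl
  · rcases cell_cases a with ⟨v, i, rfl⟩ | ⟨v, p, rfl⟩ | ⟨σ, j, hj, rfl⟩ | ⟨σ, j, hj, rfl⟩
    · rw [adj_hub] at h
      rcases h with ⟨p, rfl, _⟩ | ⟨σ, rfl, h, _⟩ | ⟨σ, rfl, h, _⟩
      · exact Or.inl rfl
      · exact Or.inr ⟨false, h⟩
      · exact Or.inr ⟨true, h⟩
    · rw [adj_hed] at h
      rcases h with rfl | rfl <;> exact Or.inl rfl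
    · rw [adj_mid] at h
      rcases h with rfl | rfl <;> exact Or.inl rfl
    · rw [adj_edg] at h
      rcases h with ⟨rfl, rfl⟩ | ⟨h', h0, rfl⟩ | ⟨h', rfl⟩ | ⟨rfl, rfl⟩
      · exact Or.inr ⟨false, rfl⟩
      · exact Or.inl rfl
      · exact Or.inl rfl
      · exact Or.inr ⟨true, rfl⟩

theorem fm_of_par {c : (next n L N).X} {v : L.V} (h : par c = Sum.inl v) : fm c = Sum.inl v := by
  rcases cell_cases c with ⟨w, i, rfl⟩ | ⟨w, p, rfl⟩ | ⟨σ, j, hj, rfl⟩ | ⟨σ, j, hj, rfl⟩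
  · exact h
  · exact h
  · simp at h
  · simp at h

/-- Ends of an edge are distinct. -/
theorem nbd_ne (hL : ∀ e, L.bd e false ≠ L.bd e true) (e : (next n L N).E) :
    (next n L N).bd e false ≠ (next n L N).bd e true := by
  rcases e with ⟨v, p⟩ | ⟨σ, j, hj⟩
  · intro h
    have h1 : (Sum.inl (v, p.1.1) : NV L N) = Sum.inl (v, p.1.2) := h
    have h2 := congrArg Prod.snd (Sum.inl.inj h1)
    exact absurd h2 p.2.ne
  · intro h
    have h1 : nbd (Sum.inr ⟨σ, ⟨j, hj⟩⟩ : NE L N) false = nbd (Sum.inr ⟨σ, ⟨j, hj⟩⟩) true := h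
    by_cases h0 : j = 0 <;> by_cases h2 : j < σ.T
    · simp only [nbd, h0, dif_pos] at h1
      rw [dif_pos (by omega)] at h1
      cases h1
    · simp only [nbd, h0, dif_pos] at h1
      rw [dif_neg (by omega)] at h1
      have h3 := congrArg Prod.fst (Sum.inl.inj h1)
      exact hL _ h3
    · simp only [nbd, h0, h2, dif_pos, dif_neg, not_false_eq_true] at h1
      have h3 := Sum.inr.inj h1
      obtain ⟨_, h4⟩ := Sigma.mk.inj h3
      have h5 := congrArg Fin.val (eq_of_heq h4)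
      simp only at h5
      omega
    · simp only [nbd, h0, h2, dif_neg, not_false_eq_true] at h1
      cases h1

theorem Lev.Strand.T_pos (hL : ∀ e, L.bd e false ≠ L.bd e true) (σ : L.Strand N) : 0 < σ.T := by
  rcases Nat.eq_zero_or_pos σ.T with h | h
  · exfalso
    have h1 := σ.isTour.1
    have h2 := σ.isTour.2.1
    rw [h] at h2
    rw [h1] at h2
    exact hL _ (Sum.inl.inj h2)
  · exact h

end next

end Pool.Agent.S08340
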