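import Mathlib
import Pool.Agent.Helper783.Continua.A

namespace Pool.Agent.S08340

open Set Relation

/-- Connectedness of a set with respect to a relation. -/
def Cn {α : Type*} (r : α → α → Prop) (D : Set α) : Prop :=
  ∀ a ∈ D, ∀ b ∈ D, ReflTransGen (fun x y => y ∈ D ∧ r x y) a b

theorem Cn.image {α β : Type*} {r : α → α → Prop} {s : β → β → Prop} {φ : α → β}
    (h : ∀ a b, r a b → s (φ a) (φ b)) {D : Set α} (hD : Cn r D) : Cn s (φ '' D) := by
  rintro _ ⟨a, ha, rfl⟩ _ ⟨b, hb, rfl⟩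
  refine ReflTransGen.lift (r := fun x y => y ∈ D ∧ r x y)
    (p := fun x y => y ∈ φ '' D ∧ s x y) φ ?_ _ _ (hD a ha b hb)
  intro x y hxy
  exact ⟨mem_image_of_mem _ hxy.1, h _ _ hxy.2⟩

theorem Cn.induct {α : Type*} {r : α → α → Prop} {D : Set α} (hD : Cn r D) {P : α → Prop}
    {a : α} (ha : a ∈ D) (hP : P a) (hs : ∀ x ∈ D, ∀ y ∈ D, r x y → P x → P y) :
    ∀ b ∈ D, P b := by
  intro b hb
  have h := hD a ha b hb
  have : b ∈ D ∧ P b := by
    clear hb
    induction h with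
    | refl => exact ⟨ha, hP⟩
    | tail _ h2 ih => exact ⟨h2.1, hs _ ih.1 _ h2.1 h2.2 ih.2⟩
  exact this.2

theorem rtg_symm {α : Type*} {r : α → α → Prop} (hr : ∀ a b, r a b → r b a) {D : Set α} {a b : α}
    (ha : a ∈ D) (h : ReflTransGen (fun x y => y ∈ D ∧ r x y) a b) :
    ReflTransGen (fun x y => y ∈ D ∧ r x y) b a := by
  have : b ∈ D ∧ ReflTransGen (fun x y => y ∈ D ∧ r x y) b a := by
    induction h with
    | refl => exact ⟨ha, ReflTransGen.refl⟩
    | tail _ h2 ih => exact ⟨h2.1, ReflTransGen.head ⟨ih.1, hr _ _ h2.2⟩ ih.2⟩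
  exact this.2

theorem cn_of_center {α : Type*} {r : α → α → Prop} (hr : ∀ a b, r a b → r b a) {D : Set α}
    {c : α} (hc : c ∈ D) (h : ∀ a ∈ D, ReflTransGen (fun x y => y ∈ D ∧ r x y) c a) : Cn r D := by
  intro a ha b hb
  exact (rtg_symm hr hc (h a ha)).trans (h b hb)

theorem cn_singleton {α : Type*} {r : α → α → Prop} (a : α) : Cn r {a} := by
  rintro b rfl c rfl
  exact ReflTransGen.refl

theorem rtg_mono {α : Type*} {r : α → α → Prop} {D D' : Set α} (h : D ⊆ D') {a b : α}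
    (hab : ReflTransGen (fun x y => y ∈ D ∧ r x y) a b) :
    ReflTransGen (fun x y => y ∈ D' ∧ r x y) a b :=
  ReflTransGen.mono (r := fun x y => y ∈ D ∧ r x y) (p := fun x y => y ∈ D' ∧ r x y)
    (fun _ _ hxy => ⟨h hxy.1, hxy.2⟩) _ _ hab

theorem Cn.insert {α : Type*} {r : α → α → Prop} (hr : ∀ a b, r a b → r b a) {D : Set α}
    (hD : Cn r D) {c d : α} (hd : d ∈ D) (h : r d c) : Cn r (insert c D) := by
  apply cn_of_center hr (mem_insert_of_mem c hd)
  rintro a (rfl | ha)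
  · exact ReflTransGen.single ⟨mem_insert _ _, h⟩
  · exact rtg_mono (subset_insert _ _) (hD d hd a ha)

section walks
variable {L : Lev}

/-- Walks from `a` to `b` in `A` visiting `F`. -/
def Lev.WC (L : Lev) (A : Set L.X) (a b : L.X) (F : Set L.X) : Prop :=
  ∃ (T : ℕ) (x : ℕ → L.X), x 0 = a ∧ x T = b ∧ (∀ i < T, L.adj (x i) (x (i + 1))) ∧
    (∀ i ≤ T, x i ∈ A) ∧ ∀ c ∈ F, ∃ i ≤ T, x i = c

theorem wc_refl {A : Set L.X} {a : L.X} (ha : a ∈ A) : L.WC A a a {a} := by
  refine ⟨0, fun _ => a, rfl, rfl, ?_, fun _ _ => ha, ?_⟩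
  · intro i hi; omega
  · rintro c rfl; exact ⟨0, le_rfl, rfl⟩

theorem wc_step {A : Set L.X} {a b : L.X} (ha : a ∈ A) (hb : b ∈ A) (h : L.adj a b) :
    L.WC A a b {a, b} := by
  refine ⟨1, fun i => if i = 0 then a else b, by simp, by simp, ?_, ?_, ?_⟩
  · intro i hi
    have : i = 0 := by omega
    subst this
    simpa using h
  · intro i _
    by_cases h0 : i = 0 <;> simp [h0, ha, hb]
  · rintro c (rfl | hc)
    · exact ⟨0, by omega, by simp⟩
    · have hc' : c = b := hc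
      subst hc'
      exact ⟨1, by omega, by simp⟩

theorem wc_mono {A A' : Set L.X} {a b : L.X} {F F' : Set L.X} (hA : A ⊆ A') (hF : F' ⊆ F)
    (h : L.WC A a b F) : L.WC A' a b F' := by
  obtain ⟨T, x, h0, hT, h1, h2, h3⟩ := h
  exact ⟨T, x, h0, hT, h1, fun i hi => hA (h2 i hi), fun c hc => h3 c (hF hc)⟩

theorem wc_trans {A : Set L.X} {a b c : L.X} {F G : Set L.X} (h : L.WC A a b F)
    (h' : L.WC A b c G) : L.WC A a c (F ∪ G) := by
  obtain ⟨T, x, h0, hT, h1, h2, h3⟩ := h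
  obtain ⟨T', x', h0', hT', h1', h2', h3'⟩ := h'
  refine ⟨T + T', fun i => if i ≤ T then x i else x' (i - T), ?_, ?_, ?_, ?_, ?_⟩
  · simpa using h0
  · by_cases h : T' = 0
    · subst h
      simp only [add_zero, le_refl, if_true]
      rw [hT, ← hT', h0']
    · simp only
      rw [if_neg (by omega)]
      rw [← hT']; congr 1; omega
  · intro i hi
    simp only
    by_cases hi1 : i + 1 ≤ T
    · rw [if_pos (by omega), if_pos hi1]; exact h1 i (by omega)
    · by_cases hi2 : i ≤ T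
      · have hiT : i = T := by omega
        rw [if_pos hi2, if_neg hi1]
        subst hiT
        have := h1' 0 (by omega)
        rw [h0'] at this
        rw [hT]
        have e : i + 1 - i = 0 + 1 := by omega
        rw [e]; exact this
      · rw [if_neg hi2, if_neg hi1]
        have := h1' (i - T) (by omega)
        have e : i + 1 - T = i - T + 1 := by omega
        rw [e]; exact this
  · intro i hi
    simp only
    by_cases hi2 : i ≤ T
    · rw [if_pos hi2]; exact h2 i hi2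
    · rw [if_neg hi2]; exact h2' _ (by omega)
  · rintro d (hd | hd)
    · obtain ⟨i, hi, rfl⟩ := h3 d hd
      exact ⟨i, by omega, by simp [hi]⟩
    · obtain ⟨i, hi, rfl⟩ := h3' d hd
      refine ⟨T + i, by omega, ?_⟩
      by_cases h : i = 0
      · subst h
        simp only [add_zero, le_refl, if_true]
        rw [hT, h0']
      · simp only
        rw [if_neg (by omega)]; congr 1; omega

theorem wc_of_rtg {A : Set L.X} {a b : L.X} (ha : a ∈ A)
    (h : ReflTransGen (fun x y => y ∈ A ∧ L.near x y) a b) : b ∈ A ∧ L.WC A a b {b} := by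
  induction h with
  | refl => exact ⟨ha, wc_refl ha⟩
  | tail _ h2 ih =>
    obtain ⟨h3, h4 | h4⟩ := h2
    · subst h4; exact ih
    · exact ⟨h3, wc_mono subset_rfl (by
        intro c hc; exact Or.inr (Or.inr hc)) (wc_trans ih.2 (wc_step ih.1 h3 h4))⟩

theorem wc_cover {A : Set L.X} (hA : Cn L.near A) {a : L.X} (ha : a ∈ A) (F : Set L.X)
    (hF : F.Finite) (hFA : F ⊆ A) : L.WC A a a F := by
  induction F, hF using Set.Finite.induction_on with
  | empty => exact wc_mono subset_rfl (empty_subset _) (wc_refl ha)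
  | @insert c F _ _ ih =>
    have hc : c ∈ A := hFA (mem_insert _ _)
    have h1 := ih (fun x hx => hFA (mem_insert_of_mem _ hx))
    have h2 := (wc_of_rtg ha (hA a ha c hc)).2
    have h3 := (wc_of_rtg hc (hA c hc a ha)).2
    refine wc_mono subset_rfl ?_ (wc_trans h1 (wc_trans h2 h3))
    rintro x (rfl | hx)
    · right; left; rfl
    · left; exact hx

theorem exists_tour [Finite L.V] [Finite L.E] (e : L.E) (D : Bool → Set L.X)
    (hD : ∀ s, Cn L.near (D s)) (hb : ∀ s, Sum.inl (L.bd e s) ∈ D s) :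
    ∃ p : ℕ × (ℕ → L.X), L.IsTour e D p.1 p.2 := by
  set A : Set L.X := {c | c ∈ D false ∨ c ∈ D true ∨ c = Sum.inr e} with hA
  have h1 : L.WC A (Sum.inl (L.bd e false)) (Sum.inl (L.bd e false)) (D false) :=
    wc_mono (fun c hc => Or.inl hc) subset_rfl
      (wc_cover (hD false) (hb false) (D false) (Set.toFinite _) subset_rfl)
  have h2 : L.WC A (Sum.inl (L.bd e true)) (Sum.inl (L.bd e true)) (D true) :=
    wc_mono (fun c hc => Or.inr (Or.inl hc)) subset_rfl
      (wc_cover (hD true) (hb true) (D true) (Set.toFinite _) subset_rfl)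
  have h3 : L.WC A (Sum.inl (L.bd e false)) (Sum.inr e) {Sum.inl (L.bd e false), Sum.inr e} :=
    wc_step (Or.inl (hb false)) (Or.inr (Or.inr rfl)) ⟨false, rfl⟩
  have h4 : L.WC A (Sum.inr e) (Sum.inl (L.bd e true)) {Sum.inr e, Sum.inl (L.bd e true)} :=
    wc_step (Or.inr (Or.inr rfl)) (Or.inr (Or.inl (hb true))) ⟨true, rfl⟩
  obtain ⟨T, x, h0, hT, hs, hm, hc⟩ := wc_trans h1 (wc_trans h3 (wc_trans h4 h2))
  refine ⟨(T, x), h0, hT, hs, hm, ?_⟩
  rintro c (h | h | h)
  · exact hc c (Or.inl h)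
  · exact hc c (Or.inr (Or.inr (Or.inr h)))
  · exact hc c (Or.inr (Or.inl (Or.inr h)))

end walks

/-- Good sets of cells. -/
structure Lev.Good (L : Lev) (b : ℕ) (D : Set L.X) : Prop where
  conn : Cn L.near D
  ne : D.Nonempty
  bd : ∀ e, Sum.inr e ∈ D → ∀ s, Sum.inl (L.bd e s) ∈ D
  rt : ∀ e, Sum.inr e ∈ D → ∀ s, b ≤ 2 ^ L.rt e s
  fam : ∀ e, Sum.inr e ∈ D → ∀ s, ∃ D' ∈ L.fam e s,
    Sum.inl (L.bd e s) ∈ D' ∧ D' ⊆ D ∧ Cn L.near D'

/-- The invariants of the levels. -/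
structure Lev.Inv (L : Lev) (n : ℕ) : Prop where
  finV : Finite L.V
  finE : Finite L.E
  bd_ne : ∀ e, L.bd e false ≠ L.bd e true
  rt_le : ∀ e s, L.rt e s ≤ n
  good : ∀ e s, ∀ D ∈ L.fam e s, L.Good (2 ^ L.rt e s) D

section
variable {n : ℕ} {L : Lev} {N : ℕ}

instance [Finite L.V] [Finite L.E] : Finite (L.Strand N) := by
  apply Finite.of_injective
    (fun σ : L.Strand N => ((σ.e, σ.D, σ.i) : L.E × (Bool → Set L.X) × (Bool → Fin N)))
  rintro ⟨e, D, i, _, _, _⟩ ⟨e', D', i', _, _, _⟩ h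
  simp only [Prod.mk.injEq] at h
  obtain ⟨rfl, rfl, rfl⟩ := h
  rfl

theorem ext_mono {D D' : Set L.X} (h : D ⊆ D') (r : Finset (Fin N)) : Ext D r ⊆ Ext D' r := by
  intro c hc
  rcases cell_cases (n := 0) c with ⟨v, i, rfl⟩ | ⟨v, p, rfl⟩ | ⟨σ, j, hj, rfl⟩ | ⟨σ, j, hj, rfl⟩
  · exact ⟨h hc.1, hc.2⟩
  · exact ⟨h hc.1, hc.2⟩
  · exact ⟨h hc.1, fun s => ⟨(hc.2 s).1.trans h, (hc.2 s).2⟩⟩
  · exact ⟨h hc.1, fun s => ⟨(hc.2 s).1.trans h, (hc.2 s).2⟩⟩

theorem ext_anti {D : Set L.X} {r r' : Finset (Fin N)} (h : r ⊆ r') : Ext D r' ⊆ Ext D r := by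
  intro c hc
  rcases cell_cases (n := 0) c with ⟨v, i, rfl⟩ | ⟨v, p, rfl⟩ | ⟨σ, j, hj, rfl⟩ | ⟨σ, j, hj, rfl⟩
  · exact ⟨hc.1, fun hi => hc.2 (h hi)⟩
  · exact ⟨hc.1, fun hi => hc.2.1 (h hi), fun hi => hc.2.2 (h hi)⟩
  · exact ⟨hc.1, fun s => ⟨(hc.2 s).1, fun hi => (hc.2 s).2 (h hi)⟩⟩
  · exact ⟨hc.1, fun s => ⟨(hc.2 s).1, fun hi => (hc.2 s).2 (h hi)⟩⟩

theorem exists_color {r : Finset (Fin N)} (hr : r.card < N) : ∃ i, i ∉ r := by
  by_contra h
  push Not at h
  have h1 : r = Finset.univ := Finset.eq_univ_iff_forall.2 h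
  rw [h1, Finset.card_univ, Fintype.card_fin] at hr
  exact lt_irrefl _ hr

/-- Existence of strands. -/
theorem exists_strand (hI : L.Inv n) {b : ℕ} {D : Set L.X} (hD : L.Good b D) {e : L.E}
    (he : Sum.inr e ∈ D) (i : Bool → Fin N) :
    ∃ σ : L.Strand N, σ.e = e ∧ σ.i = i ∧ ∀ s, σ.D s ⊆ D := by
  have := hI.finV
  have := hI.finE
  choose D' h1 h2 h3 h4 using hD.fam e he
  obtain ⟨p, hp⟩ := exists_tour e D' h4 h2
  exact ⟨⟨e, D', i, h1, h2, ⟨p, hp⟩⟩, rfl, rfl, h3⟩

theorem fm_ext (hI : L.Inv n) {b : ℕ} {D : Set L.X} (hD : L.Good b D) {r : Finset (Fin N)}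
    (hr : r.card < N) : (fm (n := n)) '' (Ext D r) = D := by
  apply Subset.antisymm
  · rintro _ ⟨c, hc, rfl⟩
    rcases cell_cases c with ⟨v, i, rfl⟩ | ⟨v, p, rfl⟩ | ⟨σ, j, hj, rfl⟩ | ⟨σ, j, hj, rfl⟩
    · exact hc.1
    · exact hc.1
    · rw [fm_mid]
      rcases σ.isTour.2.2.2.1 (j + 1) (by omega) with h | h | h
      · exact (hc.2 false).1 h
      · exact (hc.2 true).1 h
      · rw [h]; exact hc.1
    · rw [fm_edg]
      rcases σ.isTour.2.2.2.1 j (by omega) with h | h | h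
      · exact (hc.2 false).1 h
      · exact (hc.2 true).1 h
      · rw [h]; exact hc.1
  · intro c hc
    obtain ⟨i, hi⟩ := exists_color hr
    rcases c with v | e
    · exact ⟨hub n v i, ⟨hc, hi⟩, rfl⟩
    · obtain ⟨σ, he, hσi, hσ⟩ := exists_strand hI hD hc (fun _ => i)
      obtain ⟨j, hj, hx⟩ := σ.isTour.2.2.2.2 (Sum.inr e) (Or.inr (Or.inr (by rw [he])))
      refine ⟨edg n σ j hj, ⟨?_, ?_⟩, hx⟩
      · rw [he]; exact hc
      · intro s
        refine ⟨hσ s, ?_⟩
        rw [hσi]; exact hi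

theorem adj_hub_hed {v : L.V} {p : {p : Fin N × Fin N // p.1 < p.2}} {i : Fin N}
    (h : p.1.1 = i ∨ p.1.2 = i) : (next n L N).adj (hub n v i) (hed n v p) :=
  adj_hub.2 (Or.inl ⟨p, rfl, h⟩)

/-- Core vertices are joined inside the core. -/
theorem hub_path {D : Set L.X} {r : Finset (Fin N)} {v : L.V} {i j : Fin N}
    (hv : Sum.inl v ∈ D) (hi : i ∉ r) (hj : j ∉ r) :
    ReflTransGen (fun x y => y ∈ Ext D r ∧ (next n L N).near x y) (hub n v i) (hub n v j) := by
  rcases lt_trichotomy i j with h | h | h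
  · refine ReflTransGen.head (b := hed n v ⟨(i, j), h⟩) ⟨⟨hv, hi, hj⟩, Or.inr ?_⟩
      (ReflTransGen.single ⟨⟨hv, hj⟩, Or.inr ?_⟩)
    · exact adj_hub_hed (Or.inl rfl)
    · exact Lev.adj_symm (adj_hub_hed (Or.inr rfl))
  · subst h; exact ReflTransGen.refl
  · refine ReflTransGen.head (b := hed n v ⟨(j, i), h⟩) ⟨⟨hv, hj, hi⟩, Or.inr ?_⟩
      (ReflTransGen.single ⟨⟨hv, hj⟩, Or.inr ?_⟩)
    · exact adj_hub_hed (Or.inr rfl)
    · exact Lev.adj_symm (adj_hub_hed (Or.inl rfl))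

/-- Going along a strand. -/
theorem strand_path {C : Set (next n L N).X} {σ : L.Strand N}
    (hm : ∀ j h, mid n σ j h ∈ C) (he : ∀ j h, edg n σ j h ∈ C) (j : ℕ) :
    ∀ h : j ≤ σ.T, ReflTransGen (fun x y => y ∈ C ∧ (next n L N).near x y)
      (hub n (L.bd σ.e false) (σ.i false)) (edg n σ j h) := by
  induction j with
  | zero =>
    intro h
    exact ReflTransGen.single ⟨he _ _, Or.inr (adj_hub.2 (Or.inr (Or.inl ⟨σ, rfl, rfl, rfl⟩)))⟩
  | succ j ih =>
    intro h
    have h1 : j < σ.T := by omega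
    refine ((ih h1.le).tail (c := mid n σ j h1) ?_).tail ?_
    · exact ⟨hm _ _, Or.inr (Lev.adj_symm (adj_mid.2 (Or.inl rfl)))⟩
    · exact ⟨he _ _, Or.inr (adj_mid.2 (Or.inr rfl))⟩

theorem cn_ext (hI : L.Inv n) {b : ℕ} {D : Set L.X} (hD : L.Good b D)
    {r : Finset (Fin N)} (hr : r.card < N) : Cn (next n L N).near (Ext D r) := by
  obtain ⟨i₀, hi₀⟩ := exists_color hr
  obtain ⟨c₀, hc₀⟩ := hD.ne
  -- vertices of `D`
  obtain ⟨v₀, hv₀⟩ : ∃ v₀, Sum.inl v₀ ∈ D := by
    rcases c₀ with v | e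
    · exact ⟨v, hc₀⟩
    · exact ⟨_, hD.bd e hc₀ false⟩
  have hsymm : ∀ a b, (next n L N).near a b → (next n L N).near b a := fun _ _ => Lev.near_symm
  have hbase : hub n v₀ i₀ ∈ Ext D r := ⟨hv₀, hi₀⟩
  apply cn_of_center hsymm hbase
  -- reachability over the vertices of `D`
  have key : ∀ y ∈ D, ∀ v, (y = Sum.inl v ∨ ∃ e s, y = Sum.inr e ∧ L.bd e s = v) → ∀ i, i ∉ r →
      ReflTransGen (fun x y => y ∈ Ext D r ∧ (next n L N).near x y) (hub n v₀ i₀) (hub n v i) := by
    refine hD.conn.induct hv₀ ?_ ?_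
    · rintro v (hv | ⟨e, s, he, _⟩) i hi
      · obtain rfl := Sum.inl.inj hv
        exact hub_path hv₀ hi₀ hi
      · cases he
    · intro x hx y hy hxy hP v hv i hi
      rcases hxy with rfl | hxy
      · exact hP v hv i hi
      · rcases x with w | e <;> rcases y with w' | e'
        · exact hxy.elim
        · -- from a vertex to an edge
          obtain ⟨s, hs⟩ := hxy
          rcases hv with hv | ⟨e, s', he, hv⟩
          · cases hv
          · obtain rfl := Sum.inr.inj he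
            have h1 := hP w (Or.inl rfl)
            by_cases hss : s' = s
            · subst hss
              rw [← hv, hs]; exact h1 i hi
            · obtain ⟨σ, hσe, hσi, hσD⟩ := exists_strand hI hD hy (fun _ => i)
              have hσe' := hσe
              subst hσe
              have hm : ∀ j h, mid n σ j h ∈ Ext D r := fun j h =>
                ⟨hy, fun s => ⟨hσD s, by rw [hσi]; exact hi⟩⟩
              have hed : ∀ j h, edg n σ j h ∈ Ext D r := fun j h =>
                ⟨hy, fun s => ⟨hσD s, by rw [hσi]; exact hi⟩⟩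
              have h2 := strand_path hm hed σ.T le_rfl
              have h3 : ReflTransGen (fun x y => y ∈ Ext D r ∧ (next n L N).near x y)
                  (hub n (L.bd σ.e false) (σ.i false)) (hub n (L.bd σ.e true) (σ.i true)) := by
                refine h2.tail ⟨⟨hD.bd _ hy true, by rw [hσi]; exact hi⟩, Or.inr ?_⟩
                exact Lev.adj_symm (adj_hub.2 (Or.inr (Or.inr ⟨σ, rfl, rfl, rfl⟩)))
              rw [hσi] at h3
              have h4 := h1 i hi
              cases s <;> cases s'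
              · exact absurd rfl hss
              · rw [← hs] at h4
                rw [← hv]; exact h4.trans h3
              · rw [← hs] at h4
                rw [← hv]
                exact h4.trans (rtg_symm hsymm ⟨hD.bd _ hy false, hi⟩ h3)
              · exact absurd rfl hss
        · -- from an edge to a vertex
          obtain ⟨s, hs⟩ := hxy
          rcases hv with hv | ⟨e, s', he, hv⟩
          · obtain rfl := Sum.inl.inj hv
            exact hP w' (Or.inr ⟨e, s, rfl, hs⟩) i hi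
          · cases he
        · exact hxy.elim
  have key2 : ∀ v, Sum.inl v ∈ D → ∀ i, i ∉ r →
      ReflTransGen (fun x y => y ∈ Ext D r ∧ (next n L N).near x y) (hub n v₀ i₀) (hub n v i) :=
    fun v hv i hi => key _ hv v (Or.inl rfl) i hi
  intro c hc
  rcases cell_cases c with ⟨v, i, rfl⟩ | ⟨v, p, rfl⟩ | ⟨σ, j, hj, rfl⟩ | ⟨σ, j, hj, rfl⟩
  · exact key2 v hc.1 i hc.2
  · exact (key2 v hc.1 p.1.1 hc.2.1).tail ⟨hc, Or.inr (adj_hub_hed (Or.inl rfl))⟩
  · have h1 := strand_path (n := n) (C := Ext D r) (σ := σ) (fun _ _ => hc) (fun _ _ => hc) j hj.le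
    refine ((key2 _ (hD.bd _ hc.1 false) _ (hc.2 false).2).trans h1).tail ⟨hc, Or.inr ?_⟩
    exact Lev.adj_symm (adj_mid.2 (Or.inl rfl))
  · have h1 := strand_path (n := n) (C := Ext D r) (σ := σ) (fun _ _ => hc) (fun _ _ => hc) j hj
    exact (key2 _ (hD.bd _ hc.1 false) _ (hc.2 false).2).trans h1

theorem good_ext (hI : L.Inv n) {b : ℕ} (hb : b ≤ 2 ^ (n + 1)) (hN : 2 ^ (n + 1) < N)
    {D : Set L.X} (hD : L.Good b D)
    {r : Finset (Fin N)} (hr : r.card ≤ b) : (next n L N).Good b (Ext D r) := by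
  have hrN : r.card < N := by omega
  have hne : (Ext D r).Nonempty := by
    have h := fm_ext (n := n) hI hD hrN
    have h2 := hD.ne
    rw [← h] at h2
    exact (image_nonempty.1 h2)
  refine ⟨cn_ext hI hD hrN, hne, ?_, ?_, ?_⟩
  · -- ends
    rintro (⟨v, p⟩ | ⟨σ, j, hj⟩) he s
    · cases s
      · exact ⟨he.1, he.2.1⟩
      · exact ⟨he.1, he.2.2⟩
    · cases s
      · show (Sum.inl (nbd (Sum.inr ⟨σ, ⟨j, hj⟩⟩ : NE L N) false) : (next n L N).X) ∈ Ext D r
        by_cases h0 : j = 0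
        · simp only [nbd, h0, dif_pos]
          exact ⟨hD.bd _ he.1 false, (he.2 false).2⟩
        · simp only [nbd, h0, dif_neg, not_false_eq_true]
          exact he
      · show (Sum.inl (nbd (Sum.inr ⟨σ, ⟨j, hj⟩⟩ : NE L N) true) : (next n L N).X) ∈ Ext D r
        by_cases h0 : j < σ.T
        · simp only [nbd, h0, dif_pos]
          exact he
        · simp only [nbd, h0, dif_neg, not_false_eq_true]
          exact ⟨hD.bd _ he.1 true, (he.2 true).2⟩
  · rintro (⟨v, p⟩ | ⟨σ, j, hj⟩) he s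
    · exact hb
    · cases s
      · show b ≤ 2 ^ (if j = 0 then L.rt σ.e false else n + 1)
        split_ifs
        · exact hD.rt _ he.1 false
        · exact hb
      · show b ≤ 2 ^ (if j < σ.T then n + 1 else L.rt σ.e true)
        split_ifs
        · exact hb
        · exact hD.rt _ he.1 true
  · -- families
    have hbd : ∀ (e : (next n L N).E) s, Sum.inr e ∈ Ext D r → (next n L N).fam e s =
        {{Sum.inl ((next n L N).bd e s)}} → Sum.inl ((next n L N).bd e s) ∈ Ext D r →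
        ∃ D' ∈ (next n L N).fam e s,
        Sum.inl ((next n L N).bd e s) ∈ D' ∧ D' ⊆ Ext D r ∧ Cn (next n L N).near D' := by
      intro e s he h1 h2
      refine ⟨{Sum.inl ((next n L N).bd e s)}, by rw [h1]; rfl, rfl, ?_, cn_singleton _⟩
      intro c hc
      have hc' : c = Sum.inl ((next n L N).bd e s) := hc
      rw [hc']; exact h2
    have hex : ∀ (σ : L.Strand N) s, (Sum.inr σ.e ∈ D ∧ ∀ s, σ.D s ⊆ D ∧ σ.i s ∉ r) →
        ∃ D' ∈ ExtFam (L.fam σ.e s) (2 ^ L.rt σ.e s),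
        hub n (L.bd σ.e s) (σ.i s) ∈ D' ∧ D' ⊆ Ext D r ∧ Cn (next n L N).near D' := by
      intro σ s he
      refine ⟨Ext (σ.D s) r, ⟨σ.D s, σ.mem s, r, hr.trans (hD.rt _ he.1 s), rfl⟩,
        ⟨σ.bdm s, (he.2 s).2⟩, ext_mono (he.2 s).1 r, ?_⟩
      exact cn_ext hI (hI.good _ _ _ (σ.mem s)) hrN
    rintro (⟨v, p⟩ | ⟨σ, j, hj⟩) he s
    · refine hbd _ _ he rfl ?_
      cases s
      · exact ⟨he.1, he.2.1⟩
      · exact ⟨he.1, he.2.2⟩
    · cases s
      · by_cases h0 : j = 0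
        · have h1 : (next n L N).fam (Sum.inr ⟨σ, ⟨j, hj⟩⟩) false =
            ExtFam (L.fam σ.e false) (2 ^ L.rt σ.e false) := if_pos h0
          have h2 : (next n L N).bd (Sum.inr ⟨σ, ⟨j, hj⟩⟩) false =
            Sum.inl (L.bd σ.e false, σ.i false) := dif_pos h0
          rw [h1, h2]
          exact hex σ false he
        · refine hbd _ _ he (if_neg h0) ?_
          have h2 : (next n L N).bd (Sum.inr ⟨σ, ⟨j, hj⟩⟩) false =
            Sum.inr ⟨σ, ⟨j - 1, by omega⟩⟩ := dif_neg h0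
          rw [h2]
          exact he
      · by_cases h0 : j < σ.T
        · refine hbd _ _ he (if_pos h0) ?_
          have h2 : (next n L N).bd (Sum.inr ⟨σ, ⟨j, hj⟩⟩) true =
            Sum.inr ⟨σ, ⟨j, h0⟩⟩ := dif_pos h0
          rw [h2]
          exact he
        · have h1 : (next n L N).fam (Sum.inr ⟨σ, ⟨j, hj⟩⟩) true =
            ExtFam (L.fam σ.e true) (2 ^ L.rt σ.e true) := if_neg h0
          have h2 : (next n L N).bd (Sum.inr ⟨σ, ⟨j, hj⟩⟩) true =
            Sum.inl (L.bd σ.e true, σ.i true) := dif_neg h0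
          rw [h1, h2]
          exact hex σ true he

theorem good_vertex (b : ℕ) (v : L.V) : L.Good b {Sum.inl v} := by
  refine ⟨cn_singleton _, ⟨_, rfl⟩, ?_, ?_, ?_⟩ <;> intro e he <;> cases he

theorem inv_next (hI : L.Inv n) (hN : 2 ^ (n + 1) < N) : (next n L N).Inv (n + 1) := by
  have := hI.finV
  have := hI.finE
  refine ⟨?_, ?_, nbd_ne hI.bd_ne, ?_, ?_⟩
  · show Finite (NV L N); infer_instance
  · show Finite (NE L N); infer_instance
  · rintro (⟨v, p⟩ | ⟨σ, j, hj⟩) s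
    · exact le_rfl
    · cases s
      · show (if j = 0 then L.rt σ.e false else n + 1) ≤ n + 1
        split_ifs
        · exact (hI.rt_le _ _).trans (Nat.le_succ _)
        · exact le_rfl
      · show (if j < σ.T then n + 1 else L.rt σ.e true) ≤ n + 1
        split_ifs
        · exact le_rfl
        · exact (hI.rt_le _ _).trans (Nat.le_succ _)
  · have hex : ∀ (e : L.E) s C, C ∈ ExtFam (N := N) (L.fam e s) (2 ^ L.rt e s) →
        (next n L N).Good (2 ^ L.rt e s) C := by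
      rintro e s C ⟨D, hD, r, hr, rfl⟩
      refine good_ext hI ?_ hN (hI.good _ _ _ hD) hr
      exact Nat.pow_le_pow_right (by norm_num) ((hI.rt_le _ _).trans (Nat.le_succ _))
    rintro (⟨v, p⟩ | ⟨σ, j, hj⟩) s C hC
    · have hC' : C = {Sum.inl ((next n L N).bd (Sum.inl (v, p)) s)} := hC
      rw [hC']; exact good_vertex _ _
    · cases s
      · by_cases h0 : j = 0
        · have h1 : (next n L N).fam (Sum.inr ⟨σ, ⟨j, hj⟩⟩) false =
            ExtFam (L.fam σ.e false) (2 ^ L.rt σ.e false) := if_pos h0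
          have h2 : (next n L N).rt (Sum.inr ⟨σ, ⟨j, hj⟩⟩) false = L.rt σ.e false := if_pos h0
          rw [h1] at hC
          rw [h2]
          exact hex _ _ _ hC
        · have h1 : (next n L N).fam (Sum.inr ⟨σ, ⟨j, hj⟩⟩) false = _ := if_neg h0
          rw [h1] at hC
          have hC' := mem_singleton_iff.1 hC
          rw [hC']; exact good_vertex _ _
      · by_cases h0 : j < σ.T
        · have h1 : (next n L N).fam (Sum.inr ⟨σ, ⟨j, hj⟩⟩) true = _ := if_pos h0
          rw [h1] at hC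
          have hC' := mem_singleton_iff.1 hC
          rw [hC']; exact good_vertex _ _
        · have h1 : (next n L N).fam (Sum.inr ⟨σ, ⟨j, hj⟩⟩) true =
            ExtFam (L.fam σ.e true) (2 ^ L.rt σ.e true) := if_neg h0
          have h2 : (next n L N).rt (Sum.inr ⟨σ, ⟨j, hj⟩⟩) true = L.rt σ.e true := if_neg h0
          rw [h1] at hC
          rw [h2]
          exact hex _ _ _ hC

end

end Pool.Agent.S08340
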