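import Mathlib
import Pool.Agent.Helper783.Continua.B

namespace Pool.Agent.S08340

open Set Relation

/-- The levels. -/
noncomputable def Ls : ℕ → Lev
  | 0 => ⟨Unit, Empty, fun e => e.elim, fun e => e.elim, fun e => e.elim⟩
  | n + 1 => next n (Ls n) (2 ^ (n + 1) + 2)

abbrev XX (n : ℕ) : Type := (Ls n).X

noncomputable def F (n : ℕ) : XX (n + 1) → XX n :=
  fm (n := n) (L := Ls n) (N := 2 ^ (n + 1) + 2)

noncomputable def P (n : ℕ) : XX (n + 1) → XX n :=
  par (n := n) (L := Ls n) (N := 2 ^ (n + 1) + 2)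

theorem inv_Ls : ∀ n, (Ls n).Inv n
  | 0 => ⟨inferInstanceAs (Finite Unit), inferInstanceAs (Finite Empty), fun e => e.elim,
      fun e => e.elim, fun e => e.elim⟩
  | n + 1 => inv_next (inv_Ls n) (by omega)

instance (n : ℕ) : Finite (Ls n).V := (inv_Ls n).finV
instance (n : ℕ) : Finite (Ls n).E := (inv_Ls n).finE
instance (n : ℕ) : Finite (XX n) := inferInstanceAs (Finite ((Ls n).V ⊕ (Ls n).E))

theorem F_star {n : ℕ} {a b c : XX (n + 1)} (h1 : (Ls (n + 1)).near a c)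
    (h2 : (Ls (n + 1)).near c b) : (Ls n).near (F n a) (F n b) := fm_star h1 h2

theorem F_near {n : ℕ} {a b : XX (n + 1)} (h : (Ls (n + 1)).near a b) :
    (Ls n).near (F n a) (F n b) := fm_near h

theorem P_near {n : ℕ} {a b : XX (n + 1)} (h : (Ls (n + 1)).near a b) :
    (Ls n).near (P n a) (P n b) := par_near h

/-- Being a vertex. -/
def isV {L : Lev} (c : L.X) : Prop := ∃ v, c = Sum.inl v
/-- Being an edge. -/
def isE {L : Lev} (c : L.X) : Prop := ∃ e, c = Sum.inr e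

theorem isV_or_isE {L : Lev} (c : L.X) : isV c ∨ isE c := by
  rcases c with v | e
  · exact Or.inl ⟨v, rfl⟩
  · exact Or.inr ⟨e, rfl⟩

theorem not_isV_isE {L : Lev} {c : L.X} (h : isV c) (h' : isE c) : False := by
  obtain ⟨v, rfl⟩ := h
  obtain ⟨e, he⟩ := h'
  cases he

theorem near_isV {L : Lev} {a b : L.X} (h : L.near a b) (ha : isV a) (hb : isV b) : a = b := by
  obtain ⟨v, rfl⟩ := ha
  obtain ⟨w, rfl⟩ := hb
  rcases h with h | h
  · exact h
  · exact h.elim

theorem near_isE {L : Lev} {a b : L.X} (h : L.near a b) (ha : isE a) (hb : isE b) : a = b := by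
  obtain ⟨v, rfl⟩ := ha
  obtain ⟨w, rfl⟩ := hb
  rcases h with h | h
  · exact h
  · exact h.elim

/-- The relation between the parent and the image of a cell. -/
def W : ∀ n, XX n → XX n → Prop
  | 0, _, _ => False
  | n + 1, a, b => isE a ∧ ((isV b ∧ (Ls (n + 1)).adj b a ∧ P n a = P n b) ∨ W n (P n a) (P n b))

open Classical in
/-- The number of proper ancestors which are vertices. -/
noncomputable def bet : ∀ n, XX n → ℕ
  | 0, _ => 0
  | n + 1, c => bet n (P n c) + if isV (P n c) then 1 else 0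

theorem W_isE {n : ℕ} {a b : XX n} (h : W n a b) : isE a := by
  cases n with
  | zero => exact h.elim
  | succ n => exact h.1

theorem bet_of_par {n : ℕ} {a b : XX (n + 1)} (h : P n a = P n b) :
    bet (n + 1) a = bet (n + 1) b := by
  show bet n (P n a) + _ = bet n (P n b) + _
  rw [h]

open Classical in
theorem bet_par_isE {n : ℕ} {a : XX (n + 1)} (h : isE (P n a)) :
    bet (n + 1) a = bet n (P n a) := by
  show bet n (P n a) + (if isV (P n a) then 1 else 0) = bet n (P n a)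
  rw [if_neg (fun h' => not_isV_isE h' h)]; rfl

open Classical in
theorem bet_par_isV {n : ℕ} {a : XX (n + 1)} (h : isV (P n a)) :
    bet (n + 1) a = bet n (P n a) + 1 := by
  show bet n (P n a) + (if isV (P n a) then 1 else 0) = bet n (P n a) + 1
  rw [if_pos h]

theorem bet_par_le {n : ℕ} {a : XX (n + 1)} : bet n (P n a) ≤ bet (n + 1) a := Nat.le_add_right _ _

theorem W_bet : ∀ n (a b : XX n), W n a b →
    (isV b ∧ (Ls n).adj b a ∧ bet n a = bet n b) ∨ bet n a < bet n b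
  | 0, _, _, h => h.elim
  | n + 1, a, b, h => by
    obtain ⟨h1, ⟨h2, h3, h4⟩ | h2⟩ := h
    · exact Or.inl ⟨h2, h3, bet_of_par h4⟩
    · right
      have hE := W_isE h2
      rw [bet_par_isE hE]
      rcases W_bet n _ _ h2 with ⟨h3, _, h5⟩ | h3
      · rw [bet_par_isV h3]; omega
      · exact lt_of_lt_of_le h3 bet_par_le

theorem mem_ext_par {n : ℕ} {L : Lev} {N : ℕ} {D : Set L.X} {r : Finset (Fin N)}
    {c : (next n L N).X} (hc : c ∈ Ext D r) : par c ∈ D := by
  rcases cell_cases c with ⟨v, i, rfl⟩ | ⟨v, p, rfl⟩ | ⟨σ, j, hj, rfl⟩ | ⟨σ, j, hj, rfl⟩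
  · exact hc.1
  · exact hc.1
  · exact hc.1
  · exact hc.1

theorem inv_W : ∀ n (e : (Ls n).E) (s : Bool) (D : Set (XX n)), D ∈ (Ls n).fam e s →
    ∀ c ∈ D, W n (Sum.inr e) c
  | 0, e, _, _, _, _, _ => e.elim
  | n + 1, e, s, C, hC, c, hc => by
    have key : ∀ (e : (Ls (n + 1)).E) s, P n (Sum.inr e) = P n (Sum.inl ((Ls (n + 1)).bd e s)) →
        C ∈ ({{Sum.inl ((Ls (n + 1)).bd e s)}} : Set (Set (XX (n + 1)))) →
        W (n + 1) (Sum.inr e) c := by
      intro e s h1 h2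
      have h3 : C = {Sum.inl ((Ls (n + 1)).bd e s)} := h2
      rw [h3] at hc
      have h4 : c = Sum.inl ((Ls (n + 1)).bd e s) := hc
      rw [h4]
      exact ⟨⟨e, rfl⟩, Or.inl ⟨⟨_, rfl⟩, ⟨s, rfl⟩, h1⟩⟩
    have key2 : ∀ (σ : (Ls n).Strand (2 ^ (n + 1) + 2)) (e : (Ls (n + 1)).E) s b,
        P n (Sum.inr e) = Sum.inr σ.e →
        C ∈ ExtFam ((Ls n).fam σ.e s) b → W (n + 1) (Sum.inr e) c := by
      rintro σ e s b h1 ⟨D, hD, r, hr, rfl⟩
      refine ⟨⟨e, rfl⟩, Or.inr ?_⟩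
      rw [h1]
      exact inv_W n σ.e s D hD _ (mem_ext_par hc)
    rcases e with ⟨v, p⟩ | ⟨σ, j, hj⟩
    · cases s
      · exact key (Sum.inl (v, p)) false rfl hC
      · exact key (Sum.inl (v, p)) true rfl hC
    · cases s
      · by_cases h0 : j = 0
        · have h1 : (Ls (n + 1)).fam (Sum.inr ⟨σ, ⟨j, hj⟩⟩) false =
            ExtFam ((Ls n).fam σ.e false) (2 ^ (Ls n).rt σ.e false) := if_pos h0
          rw [h1] at hC
          exact key2 σ (Sum.inr ⟨σ, ⟨j, hj⟩⟩) false _ rfl hC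
        · have h1 : (Ls (n + 1)).fam (Sum.inr ⟨σ, ⟨j, hj⟩⟩) false = _ := if_neg h0
          rw [h1] at hC
          refine key (Sum.inr ⟨σ, ⟨j, hj⟩⟩) false ?_ hC
          have h2 : (Ls (n + 1)).bd (Sum.inr ⟨σ, ⟨j, hj⟩⟩) false =
            Sum.inr ⟨σ, ⟨j - 1, by omega⟩⟩ := dif_neg h0
          rw [h2]; rfl
      · by_cases h0 : j < σ.T
        · have h1 : (Ls (n + 1)).fam (Sum.inr ⟨σ, ⟨j, hj⟩⟩) true = _ := if_pos h0
          rw [h1] at hC
          refine key (Sum.inr ⟨σ, ⟨j, hj⟩⟩) true ?_ hC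
          have h2 : (Ls (n + 1)).bd (Sum.inr ⟨σ, ⟨j, hj⟩⟩) true =
            Sum.inr ⟨σ, ⟨j, h0⟩⟩ := dif_pos h0
          rw [h2]; rfl
        · have h1 : (Ls (n + 1)).fam (Sum.inr ⟨σ, ⟨j, hj⟩⟩) true =
            ExtFam ((Ls n).fam σ.e true) (2 ^ (Ls n).rt σ.e true) := if_neg h0
          rw [h1] at hC
          exact key2 σ (Sum.inr ⟨σ, ⟨j, hj⟩⟩) true _ rfl hC

theorem F_or_W {n : ℕ} (c : XX (n + 1)) : F n c = P n c ∨ W n (P n c) (F n c) := by
  have key : ∀ (σ : (Ls n).Strand (2 ^ (n + 1) + 2)) j, j ≤ σ.T →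
      σ.x j = Sum.inr σ.e ∨ W n (Sum.inr σ.e) (σ.x j) := by
    intro σ j hj
    rcases σ.isTour.2.2.2.1 j hj with h | h | h
    · exact Or.inr (inv_W n σ.e false _ (σ.mem false) _ h)
    · exact Or.inr (inv_W n σ.e true _ (σ.mem true) _ h)
    · exact Or.inl h
  rcases cell_cases (n := n) c with ⟨v, i, rfl⟩ | ⟨v, p, rfl⟩ | ⟨σ, j, hj, rfl⟩ | ⟨σ, j, hj, rfl⟩
  · exact Or.inl rfl
  · exact Or.inl rfl
  · exact key σ (j + 1) hj
  · exact key σ j hj

/-- Iterated parents and images. -/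
noncomputable def pI (m : ℕ) : ∀ i, XX (m + i) → XX m
  | 0, c => c
  | i + 1, c => pI m i (P (m + i) c)

noncomputable def fI (m : ℕ) : ∀ i, XX (m + i) → XX m
  | 0, c => c
  | i + 1, c => fI m i (F (m + i) c)

theorem W_pI_isV {m : ℕ} : ∀ i (a b : XX (m + i)), W (m + i) a b → isV (pI m i a) →
    pI m i b = pI m i a
  | 0, a, b, h, h' => (not_isV_isE h' (W_isE h)).elim
  | i + 1, a, b, h, h' => by
    obtain ⟨h1, ⟨h2, h3, h4⟩ | h2⟩ := h
    · exact congrArg (pI m i) h4.symm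
    · exact W_pI_isV i _ _ h2 h'

theorem fI_of_pI {m : ℕ} : ∀ i (c : XX (m + i)), isV (pI m i c) → fI m i c = pI m i c
  | 0, c, _ => rfl
  | i + 1, c, h => by
    have h1 : pI m i (F (m + i) c) = pI m (i + 1) c := by
      rcases F_or_W c with h2 | h2
      · exact congrArg (pI m i) h2
      · exact W_pI_isV i _ _ h2 h
    have h2 := fI_of_pI i (F (m + i) c) (by rw [h1]; exact h)
    show fI m i (F (m + i) c) = _
    rw [h2, h1]

theorem W_pI_bet {m : ℕ} : ∀ i (a b : XX (m + i)), W (m + i) a b →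
    pI m i b = pI m i a ∨ isV (pI m i b) ∨ bet m (pI m i a) < bet m (pI m i b)
  | 0, a, b, h => by
    rcases W_bet _ _ _ h with h1 | h1
    · exact Or.inr (Or.inl h1.1)
    · exact Or.inr (Or.inr h1)
  | i + 1, a, b, h => by
    obtain ⟨h1, ⟨h2, h3, h4⟩ | h2⟩ := h
    · left
      exact congrArg (pI m i) h4.symm
    · exact W_pI_bet i _ _ h2

theorem fI_pI_bet {m : ℕ} : ∀ i (c : XX (m + i)),
    fI m i c = pI m i c ∨ isV (fI m i c) ∨ bet m (pI m i c) < bet m (fI m i c)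
  | 0, c => Or.inl rfl
  | i + 1, c => by
    have ih := fI_pI_bet i (F (m + i) c)
    have h1 : pI m i (F (m + i) c) = pI m (i + 1) c ∨ isV (pI m i (F (m + i) c)) ∨
        bet m (pI m (i + 1) c) < bet m (pI m i (F (m + i) c)) := by
      rcases F_or_W c with h2 | h2
      · exact Or.inl (congrArg (pI m i) h2)
      · exact W_pI_bet i _ _ h2
    show fI m i (F (m + i) c) = _ ∨ isV (fI m i (F (m + i) c)) ∨
      _ < bet m (fI m i (F (m + i) c))
    rcases h1 with h1 | h1 | h1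
    · rw [h1] at ih; exact ih
    · right; left
      rw [fI_of_pI _ _ h1]; exact h1
    · rcases ih with ih | ih | ih
      · rw [ih]; exact Or.inr (Or.inr h1)
      · exact Or.inr (Or.inl ih)
      · exact Or.inr (Or.inr (h1.trans ih))

theorem W_pI_ne {m : ℕ} : ∀ i (a b : XX (m + i)), W (m + i) a b → pI m i b ≠ pI m i a →
    W m (pI m i a) (pI m i b) ∧ bet (m + i) a = bet m (pI m i a)
  | 0, a, b, h, _ => ⟨h, rfl⟩
  | i + 1, a, b, h, hne => by
    obtain ⟨h1, ⟨h2, h3, h4⟩ | h2⟩ := h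
    · exfalso
      apply hne
      exact congrArg (pI m i) h4.symm
    · obtain ⟨h3, h4⟩ := W_pI_ne i _ _ h2 hne
      refine ⟨h3, ?_⟩
      have h5 : bet (m + i + 1) a = bet (m + i) (P (m + i) a) := bet_par_isE (W_isE h2)
      exact h5.trans h4

theorem pI_near {m : ℕ} : ∀ i (a b : XX (m + i)), (Ls (m + i)).near a b →
    (Ls m).near (pI m i a) (pI m i b)
  | 0, _, _, h => h
  | i + 1, _, _, h => pI_near i _ _ (P_near h)

theorem fI_near {m : ℕ} : ∀ i (a b : XX (m + i)), (Ls (m + i)).near a b →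
    (Ls m).near (fI m i a) (fI m i b)
  | 0, _, _, h => h
  | i + 1, _, _, h => fI_near i _ _ (F_near h)

end Pool.Agent.S08340
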