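import Mathlib
import Pool.Agent.Helper783.Continua.C

namespace Pool.Agent.S08340

open Set Relation

/-- Threads. -/
def Th : Type := {x : ∀ n, XX n // ∀ n, F n (x (n + 1)) = x n}

/-- The trace of a set of threads on a level. -/
def lv (K : Set Th) (n : ℕ) : Set (XX n) := (fun x : Th => x.1 n) '' K

/-- Closed sets of threads. -/
def IsCl (K : Set Th) : Prop := ∀ x : Th, (∀ n, x.1 n ∈ lv K n) → x ∈ K

/-- All levels are connected. -/
def ACn (K : Set Th) : Prop := ∀ n, Cn (Ls n).near (lv K n)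

theorem lv_F (K : Set Th) (n : ℕ) : F n '' lv K (n + 1) = lv K n := by
  unfold lv
  rw [image_image]
  apply image_congr
  intro x _
  exact x.2 n

theorem lv_mono {K K' : Set Th} (h : K ⊆ K') (n : ℕ) : lv K n ⊆ lv K' n := image_mono h

theorem thread_fI (x : Th) (m : ℕ) : ∀ i, fI m i (x.1 (m + i)) = x.1 m
  | 0 => rfl
  | i + 1 => by
    show fI m i (F (m + i) (x.1 (m + i + 1))) = _
    rw [x.2 (m + i), thread_fI x m i]

theorem cn_lv_of_le (A : Set Th) {n N : ℕ} (h : n ≤ N) (hA : Cn (Ls N).near (lv A N)) :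
    Cn (Ls n).near (lv A n) := by
  induction N, h using Nat.le_induction with
  | base => exact hA
  | succ N _ ih =>
    apply ih
    rw [← lv_F]
    exact Cn.image (fun a b h => F_near h) hA

theorem thread_near_of_le (x y : Th) {n N : ℕ} (h : n ≤ N)
    (hA : (Ls N).near (x.1 N) (y.1 N)) : (Ls n).near (x.1 n) (y.1 n) := by
  induction N, h using Nat.le_induction with
  | base => exact hA
  | succ N _ ih =>
    apply ih
    rw [← x.2 N, ← y.2 N]
    exact F_near hA

theorem thread_eq_of_le (x y : Th) {n N : ℕ} (h : n ≤ N)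
    (hA : x.1 N = y.1 N) : x.1 n = y.1 n := by
  induction N, h using Nat.le_induction with
  | base => exact hA
  | succ N _ ih =>
    apply ih
    rw [← x.2 N, ← y.2 N, hA]

/-- Limits along the hyperfilter in finite types. -/
theorem ulim {α : Type*} [Finite α] (g : ℕ → α) :
    ∃ a, ∀ᶠ k in (Filter.hyperfilter ℕ : Filter ℕ), g k = a := by
  have h : ∃ a, (Filter.hyperfilter ℕ).map g = pure a := Ultrafilter.eq_pure_of_finite _
  obtain ⟨a, ha⟩ := h
  refine ⟨a, ?_⟩
  have h1 : ({a} : Set α) ∈ (Filter.hyperfilter ℕ).map g := by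
    rw [ha]; exact rfl
  exact h1

theorem hyper_ge (n : ℕ) : ∀ᶠ k in (Filter.hyperfilter ℕ : Filter ℕ), n ≤ k := by
  apply Filter.hyperfilter_le_cofinite
  rw [Filter.mem_cofinite]
  apply (Set.finite_lt_nat n).subset
  intro k hk
  simpa using hk

/-- Partial threads going down. -/
theorem down (A : ∀ n, Set (XX n)) (hne : ∀ n, (A n).Nonempty)
    (hF : ∀ n, ∀ c ∈ A (n + 1), F n c ∈ A n) (N : ℕ) :
    ∀ c ∈ A N, ∃ x : ∀ k, XX k, x N = c ∧ (∀ k < N, F k (x (k + 1)) = x k) ∧
      ∀ k ≤ N, x k ∈ A k := by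
  induction N with
  | zero =>
    intro c hc
    choose x hx using hne
    refine ⟨Function.update x 0 c, by simp, by intro k hk; omega, ?_⟩
    intro k hk
    have : k = 0 := by omega
    subst this
    simpa using hc
  | succ N ih =>
    intro c hc
    obtain ⟨x, hx, h1, h2⟩ := ih (F N c) (hF N c hc)
    refine ⟨Function.update x (N + 1) c, by simp, ?_, ?_⟩
    · intro k hk
      by_cases hkN : k = N
      · subst hkN
        rw [Function.update_self, Function.update_of_ne (by omega), hx]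
      · rw [Function.update_of_ne (by omega), Function.update_of_ne (by omega)]
        exact h1 k (by omega)
    · intro k hk
      by_cases hkN : k = N + 1
      · subst hkN
        rw [Function.update_self]; exact hc
      · rw [Function.update_of_ne (by omega)]
        exact h2 k (by omega)

/-- Partial threads through a given cell. -/
theorem up (A : ∀ n, Set (XX n)) (hne : ∀ n, (A n).Nonempty)
    (hF : ∀ n, F n '' A (n + 1) = A n) (n : ℕ) (c : XX n) (hc : c ∈ A n) (i : ℕ) :
    ∃ x : ∀ k, XX k, x n = c ∧ (∀ k < n + i, F k (x (k + 1)) = x k) ∧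
      ∀ k ≤ n + i, x k ∈ A k := by
  induction i with
  | zero =>
    exact down A hne (fun n c hc => by rw [← hF]; exact mem_image_of_mem _ hc) n c hc
  | succ i ih =>
    obtain ⟨x, hx, h1, h2⟩ := ih
    have h3 := h2 (n + i) le_rfl
    rw [← hF] at h3
    obtain ⟨d, hd, hdx⟩ := h3
    refine ⟨Function.update x (n + i + 1) d, ?_, ?_, ?_⟩
    · rw [Function.update_of_ne (by omega)]; exact hx
    · intro k hk
      by_cases hkN : k = n + i
      · subst hkN
        rw [Function.update_self, Function.update_of_ne (by omega), hdx]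
      · rw [Function.update_of_ne (by omega), Function.update_of_ne (by omega)]
        exact h1 k (by omega)
    · intro k hk
      by_cases hkN : k = n + i + 1
      · subst hkN
        rw [Function.update_self]; exact hd
      · rw [Function.update_of_ne (by omega)]
        exact h2 k (by omega)

theorem exists_thread (A : ∀ n, Set (XX n)) (hne : ∀ n, (A n).Nonempty)
    (hF : ∀ n, F n '' A (n + 1) = A n) (n : ℕ) (c : XX n) (hc : c ∈ A n) :
    ∃ x : Th, x.1 n = c ∧ ∀ k, x.1 k ∈ A k := by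
  choose x hx h1 h2 using up A hne hF n c hc
  choose z hz using fun k => ulim (fun i => x i k)
  have hzF : ∀ k, F k (z (k + 1)) = z k := by
    intro k
    obtain ⟨i, hi1, hi2, hi3⟩ := ((hz k).and ((hz (k + 1)).and (hyper_ge (k + 1)))).exists
    rw [← hi1, ← hi2]
    exact h1 i k (by omega)
  refine ⟨⟨z, hzF⟩, ?_, ?_⟩
  · obtain ⟨i, hi⟩ := (hz n).exists
    show z n = c
    rw [← hi, hx]
  · intro k
    obtain ⟨i, hi1, hi2⟩ := ((hz k).and (hyper_ge k)).exists
    show z k ∈ A k
    rw [← hi1]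
    exact h2 i k (by omega)

/-- Limits of sets of threads. -/
theorem set_lim (K : ℕ → Set Th) (hK : ∀ k, (K k).Nonempty) :
    ∃ K' : Set Th, IsCl K' ∧
      ∀ n, ∀ᶠ k in (Filter.hyperfilter ℕ : Filter ℕ), lv (K k) n = lv K' n := by
  choose A hA using fun n => ulim (fun k => lv (K k) n)
  have hne : ∀ n, (A n).Nonempty := by
    intro n
    obtain ⟨k, hk⟩ := (hA n).exists
    rw [← hk]
    exact (hK k).image _
  have hF : ∀ n, F n '' A (n + 1) = A n := by
    intro n
    obtain ⟨k, hk1, hk2⟩ := ((hA n).and (hA (n + 1))).exists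
    rw [← hk1, ← hk2]
    exact lv_F _ _
  have hlv : ∀ n, lv {x : Th | ∀ n, x.1 n ∈ A n} n = A n := by
    intro n
    apply Subset.antisymm
    · rintro _ ⟨x, hx, rfl⟩
      exact hx n
    · intro c hc
      obtain ⟨x, hx1, hx2⟩ := exists_thread A hne hF n c hc
      exact ⟨x, hx2, hx1⟩
  refine ⟨{x : Th | ∀ n, x.1 n ∈ A n}, ?_, ?_⟩
  · intro x hx n
    rw [← hlv n]; exact hx n
  · intro n
    rw [hlv n]; exact hA n

/-- Sets of threads given by sets of cells. -/
theorem exists_set (A : ∀ n, Set (XX n)) (hne : ∀ n, (A n).Nonempty)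
    (hF : ∀ n, F n '' A (n + 1) = A n) :
    IsCl {x : Th | ∀ n, x.1 n ∈ A n} ∧ ∀ n, lv {x : Th | ∀ n, x.1 n ∈ A n} n = A n := by
  have hlv : ∀ n, lv {x : Th | ∀ n, x.1 n ∈ A n} n = A n := by
    intro n
    apply Subset.antisymm
    · rintro _ ⟨x, hx, rfl⟩
      exact hx n
    · intro c hc
      obtain ⟨x, hx1, hx2⟩ := exists_thread A hne hF n c hc
      exact ⟨x, hx2, hx1⟩
  refine ⟨?_, hlv⟩
  intro x hx n
  rw [← hlv n]; exact hx n

/-- The limit of connected pieces at deeper and deeper levels. -/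
theorem piece_lim (l : ℕ) (B : ∀ k, Set (XX (l + k))) (A : ℕ → Set Th)
    (hB : ∀ k, Cn (Ls (l + k)).near (B k)) (hne : ∀ k, (B k).Nonempty)
    (hA : ∀ k, B k ⊆ lv (A k) (l + k)) :
    ∃ K' : Set Th, IsCl K' ∧ ACn K' ∧ K'.Nonempty ∧
      ∀ n, ∀ᶠ k in (Filter.hyperfilter ℕ : Filter ℕ),
        lv {x : Th | x ∈ A k ∧ x.1 (l + k) ∈ B k} n = lv K' n := by
  set K : ℕ → Set Th := fun k => {x : Th | x ∈ A k ∧ x.1 (l + k) ∈ B k} with hK
  have hlv : ∀ k, lv (K k) (l + k) = B k := by
    intro k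
    apply Subset.antisymm
    · rintro _ ⟨x, hx, rfl⟩
      exact hx.2
    · intro c hc
      obtain ⟨x, hx, rfl⟩ := hA k hc
      exact ⟨x, ⟨hx, hc⟩, rfl⟩
  have hKne : ∀ k, (K k).Nonempty := by
    intro k
    have h := hne k
    rw [← hlv k] at h
    exact image_nonempty.1 h
  obtain ⟨K', h1, h2⟩ := set_lim K hKne
  refine ⟨K', h1, ?_, ?_, h2⟩
  · intro n
    obtain ⟨k, hk1, hk2⟩ := ((h2 n).and (hyper_ge n)).exists
    rw [← hk1]
    apply cn_lv_of_le (K k) (show n ≤ l + k by omega)
    rw [hlv k]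
    exact hB k
  · obtain ⟨k, hk1⟩ := (h2 0).exists
    have h3 : (lv K' 0).Nonempty := by
      rw [← hk1]; exact (hKne k).image _
    exact image_nonempty.1 h3

end Pool.Agent.S08340
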