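import Mathlib
import Pool.Agent.Helper783.Continua.D

namespace Pool.Agent.S08340

open Set Relation

/-- Iterated extensions of a vertex. -/
def FamS (m : ℕ) (v : (Ls m).V) (b : ℕ) : ∀ j, Set (Set (XX (m + j)))
  | 0 => {{Sum.inl v}}
  | j + 1 => ExtFam (L := Ls (m + j)) (N := 2 ^ (m + j + 1) + 2) (FamS m v b j) b

theorem famS_good {m : ℕ} {v : (Ls m).V} {b : ℕ} (hb : b ≤ 2 ^ (m + 1)) :
    ∀ j, ∀ C ∈ FamS m v b j, (Ls (m + j)).Good b C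
  | 0, C, hC => by
    have hC' : C = {Sum.inl v} := hC
    rw [hC']; exact good_vertex _ _
  | j + 1, C, hC => by
    obtain ⟨D, hD, r, hr, rfl⟩ := hC
    have h1 : 2 ^ (m + 1) ≤ 2 ^ (m + j + 1) := Nat.pow_le_pow_right (by norm_num) (by omega)
    exact good_ext (inv_Ls (m + j)) (hb.trans h1) (Nat.lt_add_of_pos_right (by norm_num))
      (famS_good hb j D hD) hr

theorem famS_F {m : ℕ} {v : (Ls m).V} {b : ℕ} (hb : b ≤ 2 ^ (m + 1)) (j : ℕ)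
    {C : Set (XX (m + (j + 1)))} (hC : C ∈ FamS m v b (j + 1)) : F (m + j) '' C ∈ FamS m v b j := by
  obtain ⟨D, hD, r, hr, rfl⟩ := hC
  have h1 : 2 ^ (m + 1) ≤ 2 ^ (m + j + 1) := Nat.pow_le_pow_right (by norm_num) (by omega)
  have h2 : F (m + j) '' (Ext D r) = D :=
    fm_ext (inv_Ls (m + j)) (famS_good hb j D hD)
      (lt_of_le_of_lt (hr.trans (hb.trans h1)) (Nat.lt_add_of_pos_right (by norm_num)))
  rw [h2]; exact hD

theorem famS_pI {m : ℕ} {v : (Ls m).V} {b : ℕ} :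
    ∀ j, ∀ C ∈ FamS m v b j, ∀ c ∈ C, pI m j c = Sum.inl v
  | 0, C, hC, c, hc => by
    have hC' : C = {Sum.inl v} := hC
    rw [hC'] at hc; exact hc
  | j + 1, C, hC, c, hc => by
    obtain ⟨D, hD, r, hr, rfl⟩ := hC
    exact famS_pI j D hD _ (mem_ext_par hc)

theorem famS_inter {m : ℕ} {v : (Ls m).V} {b : ℕ} :
    ∀ j, ∀ C ∈ FamS m v b j, ∀ C' ∈ FamS m v b j, ∃ C'' ∈ FamS m v (2 * b) j, C'' ⊆ C ∧ C'' ⊆ C'
  | 0, C, hC, C', hC' => by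
    have h1 : C = {Sum.inl v} := hC
    have h2 : C' = {Sum.inl v} := hC'
    refine ⟨{Sum.inl v}, rfl, ?_, ?_⟩
    · rw [h1]
    · rw [h2]
  | j + 1, C, hC, C', hC' => by
    obtain ⟨D, hD, r, hr, rfl⟩ := hC
    obtain ⟨D', hD', r', hr', rfl⟩ := hC'
    obtain ⟨D'', h1, h2, h3⟩ := famS_inter j D hD D' hD'
    refine ⟨Ext D'' (r ∪ r'), ⟨D'', h1, r ∪ r', ?_, rfl⟩, ?_, ?_⟩
    · have := Finset.card_union_le r r'
      omega
    · exact (ext_mono h2 _).trans (ext_anti Finset.subset_union_left)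
    · exact (ext_mono h3 _).trans (ext_anti Finset.subset_union_right)

theorem famS_two {m : ℕ} {v : (Ls m).V} {b : ℕ} (hb : b ≤ 2 ^ (m + 1))
    {C : Set (XX (m + (0 + 1)))} (hC : C ∈ FamS m v b (0 + 1)) :
    ∃ h ∈ C, ∃ h' ∈ C, ¬ (Ls (m + 1)).near h h' := by
  obtain ⟨D, hD, r, hr, rfl⟩ := hC
  have hD' : D = {Sum.inl v} := hD
  subst hD'
  have hb' : b ≤ 2 ^ (m + 0 + 1) := hb
  obtain ⟨i, hi⟩ : ∃ i, i ∉ r :=
    exists_color (lt_of_le_of_lt (hr.trans hb') (Nat.lt_add_of_pos_right (by norm_num)))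
  obtain ⟨j, hj⟩ : ∃ j, j ∉ insert i r := exists_color (by
    have h1 := Finset.card_insert_le i r
    have h2 := hr.trans hb'
    exact lt_of_le_of_lt (h1.trans (Nat.succ_le_succ h2)) (Nat.lt_succ_self _))
  simp only [Finset.mem_insert, not_or] at hj
  refine ⟨hub (m + 0) v i, ⟨rfl, hi⟩, hub (m + 0) v j, ⟨rfl, hj.2⟩, ?_⟩
  rintro (h | h)
  · have h1 := Sum.inl.inj h
    have h2 := Sum.inl.inj h1
    exact hj.1 (congrArg Prod.snd h2).symm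
  · exact h.elim

theorem famS_two_lv {m : ℕ} {v : (Ls m).V} {b : ℕ} (hb : b ≤ 2 ^ (m + 1)) :
    ∀ (k : ℕ) (C : Set (XX (m + (k + 1)))), C ∈ FamS m v b (k + 1) → ∀ A : Set Th,
      C ⊆ lv A (m + (k + 1)) →
      ∃ h ∈ lv {x : Th | x ∈ A ∧ x.1 (m + (k + 1)) ∈ C} (m + 1),
      ∃ h' ∈ lv {x : Th | x ∈ A ∧ x.1 (m + (k + 1)) ∈ C} (m + 1), ¬ (Ls (m + 1)).near h h'
  | 0, C, hC, A, hCA => by
    obtain ⟨h, h1, h', h2, h3⟩ := famS_two hb hC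
    obtain ⟨x, hx, rfl⟩ := hCA h1
    obtain ⟨y, hy, rfl⟩ := hCA h2
    exact ⟨_, ⟨x, ⟨hx, h1⟩, rfl⟩, _, ⟨y, ⟨hy, h2⟩, rfl⟩, h3⟩
  | k + 1, C, hC, A, hCA => by
    have h1 := famS_F hb (k + 1) hC
    have h2 : F (m + (k + 1)) '' C ⊆
        lv {x : Th | x ∈ A ∧ x.1 (m + (k + 1 + 1)) ∈ C} (m + (k + 1)) := by
      rintro _ ⟨c, hc, rfl⟩
      obtain ⟨x, hx, rfl⟩ := hCA hc
      exact ⟨x, ⟨hx, hc⟩, (x.2 _).symm⟩
    obtain ⟨h, hh, h', hh', h3⟩ := famS_two_lv hb k _ h1 _ h2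
    refine ⟨h, lv_mono ?_ _ hh, h', lv_mono ?_ _ hh', h3⟩
    · exact fun x hx => hx.1
    · exact fun x hx => hx.1

/-- A nondegenerate connected closed set of threads. -/
structure Nd (K : Set Th) : Prop where
  cl : IsCl K
  cn : ACn K
  two : ∃ x ∈ K, ∃ y ∈ K, ∃ n, ¬ (Ls n).near (x.1 n) (y.1 n)

/-- Two continua containing fat sets at the same vertex share a continuum. -/
theorem share {m : ℕ} {v : (Ls m).V} {K K' : Set Th} (hK : IsCl K) (hK' : IsCl K')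
    (h : ∀ j, ∃ D ∈ FamS m v (2 ^ m) j, D ⊆ lv K (m + j))
    (h' : ∀ j, ∃ D ∈ FamS m v (2 ^ m) j, D ⊆ lv K' (m + j)) :
    ∃ K'' : Set Th, Nd K'' ∧ K'' ⊆ K ∧ K'' ⊆ K' := by
  choose D hD1 hD2 using h
  choose D' hD1' hD2' using h'
  choose C hC1 hC2 hC3 using fun j => famS_inter j (D j) (hD1 j) (D' j) (hD1' j)
  have hb : 2 * 2 ^ m ≤ 2 ^ (m + 1) := by rw [pow_succ]; omega
  have hg := fun j => famS_good hb j (C j) (hC1 j)
  obtain ⟨K'', h1, h2, h3, h4⟩ := piece_lim m C (fun _ => K) (fun j => (hg j).conn)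
    (fun j => (hg j).ne) (fun j => (hC2 j).trans (hD2 j))
  refine ⟨K'', ⟨h1, h2, ?_⟩, ?_, ?_⟩
  · obtain ⟨k, hk1, hk2⟩ := ((h4 (m + 1)).and (hyper_ge 1)).exists
    obtain ⟨k, rfl⟩ : ∃ k', k = k' + 1 := ⟨k - 1, by omega⟩
    obtain ⟨c, hc, c', hc', h5⟩ := famS_two_lv hb k (C (k + 1)) (hC1 (k + 1)) K
      ((hC2 (k + 1)).trans (hD2 (k + 1)))
    rw [hk1] at hc hc'
    obtain ⟨x, hx, rfl⟩ := hc
    obtain ⟨y, hy, rfl⟩ := hc'
    exact ⟨x, hx, y, hy, m + 1, h5⟩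
  · intro x hx
    apply hK
    intro n
    obtain ⟨k, hk⟩ := (h4 n).exists
    have h5 : x.1 n ∈ lv K'' n := mem_image_of_mem _ hx
    rw [← hk] at h5
    exact lv_mono (fun x hx => hx.1) n h5
  · intro x hx
    apply hK'
    intro n
    obtain ⟨k, hk, hk2⟩ := ((h4 n).and (hyper_ge n)).exists
    have h5 : x.1 n ∈ lv K'' n := mem_image_of_mem _ hx
    rw [← hk] at h5
    obtain ⟨y, ⟨_, hy⟩, hyx⟩ := h5
    obtain ⟨z, hz, hzy⟩ := hD2' k (hC3 k hy)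
    refine ⟨z, hz, ?_⟩
    rw [← hyx]
    exact thread_eq_of_le z y (show n ≤ m + k by omega) hzy

end Pool.Agent.S08340
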