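import Mathlib
import Pool.Agent.Helper783.Continua.E

namespace Pool.Agent.S08340

open Set Relation

/-- Middle vertices. -/
def isMid {n : ℕ} (c : XX (n + 1)) : Prop :=
  ∃ (σ : (Ls n).Strand (2 ^ (n + 1) + 2)) (j : ℕ) (h : j < σ.T), c = mid n σ j h

theorem isMid.isV {n : ℕ} {c : XX (n + 1)} (h : isMid c) : isV c := by
  obtain ⟨σ, j, h, rfl⟩ := h
  exact ⟨_, rfl⟩

/-- The closed star of a cell. -/
def Star {n : ℕ} (μ : XX n) : Set (XX n) := {c | (Ls n).near μ c}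

theorem star_mid {n : ℕ} {μ c c' : XX (n + 1)} (hμ : isMid μ) (h : (Ls (n + 1)).adj μ c)
    (h' : (Ls (n + 1)).adj μ c') (hcc : c ≠ c') : Star μ = {c', c, μ} := by
  obtain ⟨σ, j, hj, rfl⟩ := hμ
  have h1 := (adj_mid (n := n) (L := Ls n)).1 h
  have h2 := (adj_mid (n := n) (L := Ls n)).1 h'
  ext d
  constructor
  · rintro (hd | hd)
    · exact Or.inr (Or.inr hd.symm)
    · have h3 := (adj_mid (n := n) (L := Ls n)).1 hd
      rcases h1 with h1 | h1 <;> rcases h2 with h2 | h2 <;> rcases h3 with h3 | h3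
      · exact absurd (h1.trans h2.symm) hcc
      · exact absurd (h1.trans h2.symm) hcc
      · exact Or.inr (Or.inl (h3.trans h1.symm))
      · exact Or.inl (h3.trans h2.symm)
      · exact Or.inl (h3.trans h2.symm)
      · exact Or.inr (Or.inl (h3.trans h1.symm))
      · exact absurd (h1.trans h2.symm) hcc
      · exact absurd (h1.trans h2.symm) hcc
  · rintro (rfl | rfl | hd)
    · exact Or.inr h'
    · exact Or.inr h
    · exact Or.inl hd.symm

theorem fm_const {n : ℕ} {L : Lev} {N : ℕ} {c c' : (next n L N).X} (h : (next n L N).near c c')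
    (hc : ¬ ∃ (σ : L.Strand N) (j : ℕ) (h : j < σ.T), c = mid n σ j h)
    (hc' : ¬ ∃ (σ : L.Strand N) (j : ℕ) (h : j < σ.T), c' = mid n σ j h) : fm c = fm c' := by
  rcases h with rfl | h
  · rfl
  · rcases cell_cases c with ⟨v, i, rfl⟩ | ⟨v, p, rfl⟩ | ⟨σ, j, hj, rfl⟩ | ⟨σ, j, hj, rfl⟩
    · rw [adj_hub] at h
      rcases h with ⟨p, rfl, _⟩ | ⟨σ, rfl, h, _⟩ | ⟨σ, rfl, h, _⟩
      · rfl
      · rw [fm_edg, σ.isTour.1, h]; rfl
      · rw [fm_edg, σ.isTour.2.1, h]; rfl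
    · rw [adj_hed] at h
      rcases h with rfl | rfl <;> rfl
    · exact absurd ⟨σ, j, hj, rfl⟩ hc
    · rw [adj_edg] at h
      rcases h with ⟨rfl, rfl⟩ | ⟨h', h0, rfl⟩ | ⟨h', rfl⟩ | ⟨rfl, rfl⟩
      · rw [fm_edg, σ.isTour.1]; rfl
      · exact absurd ⟨_, _, _, rfl⟩ hc'
      · exact absurd ⟨_, _, _, rfl⟩ hc'
      · rw [fm_edg, σ.isTour.2.1]; rfl

theorem F_const {n : ℕ} {c c' : XX (n + 1)} (h : (Ls (n + 1)).near c c') (hc : ¬ isMid c)
    (hc' : ¬ isMid c') : F n c = F n c' := fm_const h hc hc'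

theorem near_symm' {n : ℕ} : ∀ a b : XX n, (Ls n).near a b → (Ls n).near b a :=
  fun _ _ => Lev.near_symm

/-- Walks which do not cross a middle vertex stay near one label. -/
theorem no_cross {n l : ℕ} (φ : XX l → XX (n + 1))
    (hφ : ∀ a b, (Ls l).near a b → (Ls (n + 1)).near (φ a) (φ b)) (S : Set (XX l))
    (hS : Cn (Ls l).near S) (hSne : S.Nonempty) {Z : Type} (g : XX (n + 1) → Z)
    (hg : ∀ c ∈ φ '' S, ∀ c' ∈ φ '' S, (Ls (n + 1)).near c c' → ¬ isMid c → ¬ isMid c' → g c = g c')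
    (hno : ¬ ∃ B ⊆ S, B.Nonempty ∧ Cn (Ls l).near B ∧ ∃ μ, isMid μ ∧ φ '' B = Star μ) :
    ∃ z, ∀ c ∈ φ '' S, ∃ c', (Ls (n + 1)).near c c' ∧ g c' = z := by
  by_cases hall : ∀ b ∈ S, isMid (φ b)
  · obtain ⟨b₀, hb₀⟩ := hSne
    have h1 : ∀ b ∈ S, φ b = φ b₀ := by
      refine hS.induct hb₀ rfl ?_
      intro x hx y hy hxy hP
      rw [← hP]
      exact (near_isV (hφ _ _ hxy) (hall x hx).isV (hall y hy).isV).symm
    refine ⟨g (φ b₀), ?_⟩
    rintro _ ⟨b, hb, rfl⟩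
    exact ⟨φ b₀, Or.inl (h1 b hb), rfl⟩
  · push Not at hall
    obtain ⟨b₀, hb₀, hm₀⟩ := hall
    have key : ∀ b ∈ S, (¬ isMid (φ b) ∧ g (φ b) = g (φ b₀)) ∨
        (isMid (φ b) ∧ ∃ c', (Ls (n + 1)).adj (φ b) c' ∧ g c' = g (φ b₀) ∧
          ∃ B ⊆ S, Cn (Ls l).near B ∧ b ∈ B ∧ φ '' B = {c', φ b}) := by
      refine hS.induct hb₀ (Or.inl ⟨hm₀, rfl⟩) ?_
      rintro x hx y hy hxy (⟨h1, h2⟩ | ⟨h1, c', h2, h3, B, hB1, hB2, hB3, hB4⟩)
      · by_cases hy' : isMid (φ y)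
        · right
          refine ⟨hy', φ x, ?_, h2, {y, x}, ?_, ?_, Or.inl rfl, ?_⟩
          · rcases hφ _ _ (Lev.near_symm hxy) with h | h
            · exact absurd (h ▸ hy') h1
            · exact h
          · rintro z (rfl | hz)
            · exact hy
            · have : z = x := hz
              rw [this]; exact hx
          · exact (cn_singleton x).insert near_symm' rfl hxy
          · rw [image_pair, pair_comm]
        · left
          refine ⟨hy', ?_⟩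
          rw [← h2]
          exact (hg _ (mem_image_of_mem _ hx) _ (mem_image_of_mem _ hy) (hφ _ _ hxy) h1 hy').symm
      · have hins : Cn (Ls l).near (insert y B) := hB2.insert near_symm' hB3 hxy
        have hsub : insert y B ⊆ S := by
          rintro z (rfl | hz)
          · exact hy
          · exact hB1 hz
        rcases hφ _ _ hxy with h | h
        · right
          refine ⟨h ▸ h1, c', h ▸ h2, h3, insert y B, hsub, hins, mem_insert _ _, ?_⟩
          rw [image_insert_eq, hB4, ← h]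
          ext z; simp only [mem_insert_iff, mem_singleton_iff]; tauto
        · left
          have hy' : ¬ isMid (φ y) := by
            intro hy'
            have h4 := near_isV (Or.inr h) h1.isV hy'.isV
            obtain ⟨v, hv⟩ := h1.isV
            rw [← h4, hv] at h
            exact h
          refine ⟨hy', ?_⟩
          by_cases hcc : c' = φ y
          · rw [← hcc]; exact h3
          · exfalso
            apply hno
            refine ⟨insert y B, hsub, ⟨y, mem_insert _ _⟩, hins, φ x, h1, ?_⟩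
            rw [image_insert_eq, hB4, star_mid h1 h2 h hcc]
    refine ⟨g (φ b₀), ?_⟩
    rintro _ ⟨b, hb, rfl⟩
    rcases key b hb with ⟨h1, h2⟩ | ⟨h1, c', h2, h3, _⟩
    · exact ⟨φ b, Or.inl rfl, h2⟩
    · exact ⟨c', Or.inr h2, h3⟩

/-- Subcontinua obtained from connected pieces. -/
theorem sub_lim {K : Set Th} (hK : IsCl K) (l : ℕ) (B : ∀ k, Set (XX (l + k)))
    (hB : ∀ k, Cn (Ls (l + k)).near (B k)) (hne : ∀ k, (B k).Nonempty)
    (hA : ∀ k, B k ⊆ lv K (l + k)) :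
    ∃ K' ⊆ K, IsCl K' ∧ ACn K' ∧ ∃ k, lv K' l = fI l k '' B k := by
  obtain ⟨K', h1, h2, h3, h4⟩ := piece_lim l B (fun _ => K) hB hne hA
  refine ⟨K', ?_, h1, h2, ?_⟩
  · intro x hx
    apply hK
    intro n
    obtain ⟨k, hk⟩ := (h4 n).exists
    have h5 : x.1 n ∈ lv K' n := mem_image_of_mem _ hx
    rw [← hk] at h5
    exact lv_mono (fun x hx => hx.1) n h5
  · obtain ⟨k, hk⟩ := (h4 l).exists
    refine ⟨k, ?_⟩
    rw [← hk]
    apply Subset.antisymm
    · rintro _ ⟨x, hx, rfl⟩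
      exact ⟨x.1 (l + k), hx.2, thread_fI x l k⟩
    · rintro _ ⟨c, hc, rfl⟩
      obtain ⟨x, hx, rfl⟩ := hA k hc
      exact ⟨x, ⟨hx, hc⟩, (thread_fI x l k).symm⟩

theorem lv_fI (K : Set Th) (l k : ℕ) : fI l k '' lv K (l + k) = lv K l := by
  unfold lv
  rw [image_image]
  apply image_congr
  intro x _
  exact thread_fI x l k

/-- The crossing lemma. -/
theorem cross_or {K : Set Th} (hK : IsCl K) (hKc : ACn K) (hne : K.Nonempty) (n : ℕ) {Z : Type}
    (g : XX (n + 1) → Z)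
    (hg : ∀ c ∈ lv K (n + 1), ∀ c' ∈ lv K (n + 1), (Ls (n + 1)).near c c' →
      ¬ isMid c → ¬ isMid c' → g c = g c') :
    (∃ K' ⊆ K, IsCl K' ∧ ACn K' ∧ ∃ μ : XX (n + 1), isMid μ ∧ lv K' (n + 1) = Star μ) ∨
    ∃ z, ∀ c ∈ lv K (n + 1), ∃ c', (Ls (n + 1)).near c c' ∧ g c' = z := by
  by_cases h : ∀ k, ∃ B ⊆ lv K (n + 1 + k), B.Nonempty ∧ Cn (Ls (n + 1 + k)).near B ∧
      ∃ μ, isMid μ ∧ fI (n + 1) k '' B = Star μ
  · left
    choose B h1 h2 h3 μ h4 h5 using h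
    obtain ⟨K', hK1, hK2, hK3, k, hk⟩ := sub_lim hK (n + 1) B h3 h2 h1
    exact ⟨K', hK1, hK2, hK3, μ k, h4 k, by rw [hk, h5]⟩
  · right
    push Not at h
    obtain ⟨k, hk⟩ := h
    have h1 := no_cross (n := n) (l := n + 1 + k) (fI (n + 1) k) (fI_near k) (lv K (n + 1 + k))
      (hKc _) (hne.image _) g (by rw [lv_fI]; exact hg) (by
        rintro ⟨B, hB1, hB2, hB3, μ, hμ1, hμ2⟩
        exact hk B hB1 hB2 hB3 μ hμ1 hμ2)
    rw [lv_fI] at h1
    exact h1

end Pool.Agent.S08340
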