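import Mathlib
import Pool.Agent.Helper783.Continua.G

namespace Pool.Agent.S08340

open Set Relation

/-- `K` crosses the middle vertex `μ`. -/
structure Cr (K : Set Th) (n : ℕ) (μ : XX (n + 1)) : Prop where
  cl : IsCl K
  cn : ACn K
  mid : isMid μ
  lv : lv K (n + 1) = Star μ

theorem nd_cross {K : Set Th} (hK : Nd K) : ∃ K' ⊆ K, ∃ n μ, Cr K' n μ := by
  obtain ⟨x, hx, y, hy, n, hn⟩ := hK.two
  rcases cross_or hK.cl hK.cn ⟨x, hx⟩ (n + 1) (F (n + 1))
    (fun c _ c' _ h h1 h2 => F_const h h1 h2) with ⟨K', h1, h2, h3, μ, h4, h5⟩ | ⟨z, hz⟩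
  · exact ⟨K', h1, n + 1, μ, h2, h3, h4, h5⟩
  · exfalso
    apply hn
    have h1 : ∀ x ∈ K, (Ls (n + 1)).near (x.1 (n + 1)) z := by
      intro x hx
      obtain ⟨c', h2, h3⟩ := hz (x.1 (n + 2)) (mem_image_of_mem _ hx)
      have h4 := F_near h2
      rw [h3, x.2 (n + 1)] at h4
      exact h4
    have h2 := F_star (h1 x hx) (Lev.near_symm (h1 y hy))
    rw [x.2 n, y.2 n] at h2
    exact h2

theorem Cr.nonempty {K : Set Th} {n : ℕ} {μ : XX (n + 1)} (h : Cr K n μ) : K.Nonempty := by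
  have h1 : (Pool.Agent.S08340.lv K (n + 1)).Nonempty := by
    rw [h.lv]; exact ⟨μ, Or.inl rfl⟩
  exact image_nonempty.1 h1

theorem star_P {n : ℕ} {μ : XX (n + 1)} (hμ : isMid μ) {c : XX (n + 1)} (hc : c ∈ Star μ) :
    P n c = P n μ := by
  rcases hc with rfl | hc
  · rfl
  · obtain ⟨σ, j, hj, rfl⟩ := hμ
    have h1 := (adj_mid (n := n) (L := Ls n)).1 hc
    rcases h1 with rfl | rfl <;> rfl

theorem P_mid_isE {n : ℕ} {μ : XX (n + 1)} (hμ : isMid μ) : isE (P n μ) := by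
  obtain ⟨σ, j, hj, rfl⟩ := hμ
  exact ⟨_, rfl⟩

/-- Two cells over edges which are near and not middle vertices coincide. -/
theorem eq_of_isE_P {n : ℕ} {c c' : XX (n + 1)} (h : (Ls (n + 1)).near c c')
    (hc : isE (P n c)) (hc' : isE (P n c')) (hm : ¬ isMid c) (hm' : ¬ isMid c') : c = c' := by
  have key : ∀ c : XX (n + 1), isE (P n c) → ¬ isMid c → isE c := by
    intro c h1 h2
    rcases cell_cases (n := n) c with ⟨v, i, rfl⟩ | ⟨v, p, rfl⟩ | ⟨σ, j, hj, rfl⟩ | ⟨σ, j, hj, rfl⟩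
    · exact (not_isV_isE ⟨_, rfl⟩ h1).elim
    · exact ⟨_, rfl⟩
    · exact absurd ⟨_, _, _, rfl⟩ h2
    · exact ⟨_, rfl⟩
  exact near_isE h (key c hc hm) (key c' hc' hm')

/-- Choose the crossing so that the number of vertex ancestors is minimal. -/
theorem exists_min_cross {K : Set Th} (hK : Nd K) :
    ∃ K₁ ⊆ K, ∃ n μ, Cr K₁ n μ ∧
      ∀ K' ⊆ K₁, ∀ n' μ', Cr K' n' μ' → bet (n + 1) μ ≤ bet (n' + 1) μ' := by
  classical
  have hex : ∃ b, ∃ K' ⊆ K, ∃ n μ, Cr K' n μ ∧ bet (n + 1) μ = b := by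
    obtain ⟨K', h1, n, μ, h2⟩ := nd_cross hK
    exact ⟨_, K', h1, n, μ, h2, rfl⟩
  obtain ⟨K', h1, n, μ, h2, h3⟩ := Nat.find_spec hex
  refine ⟨K', h1, n, μ, h2, ?_⟩
  intro K'' h4 n' μ' h5
  rw [h3]
  exact Nat.find_min' hex ⟨K'', h4.trans h1, n', μ', h5, rfl⟩

section
variable {K : Set Th} {n : ℕ} {μ : XX (n + 1)}

/-- The two edges of a star are distinct and not near. -/
theorem star_edges (hμ : isMid μ) : ∃ ε₁ ε₂ : XX (n + 1), isE ε₁ ∧ isE ε₂ ∧ ε₁ ≠ ε₂ ∧
    ε₁ ∈ Star μ ∧ ε₂ ∈ Star μ ∧ ∀ c ∈ Star μ, c = μ ∨ c = ε₁ ∨ c = ε₂ := by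
  obtain ⟨σ, j, hj, rfl⟩ := hμ
  refine ⟨edg n σ j hj.le, edg n σ (j + 1) hj, ⟨_, rfl⟩, ⟨_, rfl⟩, ?_, ?_, ?_, ?_⟩
  · intro h
    have h1 := Sum.inr.inj h
    have h2 := Sum.inr.inj h1
    obtain ⟨_, h3⟩ := Sigma.mk.inj h2
    have h5 := congrArg Fin.val (eq_of_heq h3)
    simp only at h5
    omega
  · exact Or.inr ((adj_mid (n := n) (L := Ls n)).2 (Or.inl rfl))
  · exact Or.inr ((adj_mid (n := n) (L := Ls n)).2 (Or.inr rfl))
  · rintro c (h | h)
    · exact Or.inl h.symm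
    · exact Or.inr ((adj_mid (n := n) (L := Ls n)).1 h)

theorem star_isV (hμ : isMid μ) {c : XX (n + 1)} (hc : c ∈ Star μ) (hv : isV c) : c = μ :=
  (near_isV hc hμ.isV hv).symm

/-- Step 4: everything stays over the star. -/
theorem over_star (hC : Cr K n μ)
    (hmin : ∀ K' ⊆ K, ∀ n' μ', Cr K' n' μ' → bet (n + 1) μ ≤ bet (n' + 1) μ') :
    ∀ j, ∀ c ∈ lv K (n + 1 + j), pI (n + 1) j c ∈ Star μ
  | 0, c, hc => by rw [← hC.lv]; exact hc
  | j + 1, c₀, hc₀ => by
    have IH := over_star hC hmin j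
    by_contra hcon
    have hfI : ∀ c ∈ lv K (n + 1 + (j + 1)), fI (n + 1) (j + 1) c ∈ Star μ := by
      intro c hc
      rw [← hC.lv, ← lv_fI K (n + 1) (j + 1)]
      exact mem_image_of_mem _ hc
    have hvert : ∀ c ∈ lv K (n + 1 + (j + 1)), isV (pI (n + 1) (j + 1) c) →
        pI (n + 1) (j + 1) c = μ := by
      intro c hc hv
      have h1 := fI_of_pI _ _ hv
      have h2 := hfI c hc
      rw [h1] at h2
      exact star_isV hC.mid h2 hv
    set ε' := pI (n + 1) (j + 1) c₀ with hε'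
    have hE : isE ε' := by
      rcases isV_or_isE ε' with h | h
      · exfalso
        exact hcon (Or.inl (hvert c₀ hc₀ h).symm)
      · exact h
    have hall : ∀ c ∈ lv K (n + 1 + (j + 1)), pI (n + 1) (j + 1) c = ε' := by
      refine (hC.cn (n + 1 + (j + 1))).induct hc₀ rfl ?_
      intro x hx y hy hxy hP
      have h1 := pI_near _ _ _ hxy
      rw [hP] at h1
      rcases isV_or_isE (pI (n + 1) (j + 1) y) with h | h
      · exfalso
        have h2 := hvert y hy h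
        rw [h2] at h1
        exact hcon (Lev.near_symm h1)
      · exact (near_isE h1 hE h).symm
    have hstep : ∀ c ∈ lv K (n + 1 + (j + 1)), isE (P (n + 1 + j) c) ∧
        bet (n + 1 + j) (P (n + 1 + j) c) < bet (n + 1) μ := by
      intro c hc
      have h1 : pI (n + 1) j (P (n + 1 + j) c) = ε' := hall c hc
      have h2 : pI (n + 1) j (F (n + 1 + j) c) ∈ Star μ := by
        apply IH
        rw [← lv_F]
        exact mem_image_of_mem _ hc
      have hne : pI (n + 1) j (F (n + 1 + j) c) ≠ pI (n + 1) j (P (n + 1 + j) c) := by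
        rw [h1]
        intro h
        rw [h] at h2
        exact hcon h2
      have hW : W (n + 1 + j) (P (n + 1 + j) c) (F (n + 1 + j) c) := by
        rcases F_or_W c with h | h
        · exact absurd (congrArg (pI (n + 1) j) h) hne
        · exact h
      obtain ⟨h3, h4⟩ := W_pI_ne j _ _ hW hne
      refine ⟨W_isE hW, ?_⟩
      rw [h4]
      rcases W_bet _ _ _ h3 with ⟨h5, h6, _⟩ | h5
      · exfalso
        have h7 := star_isV hC.mid h2 h5
        rw [h7, h1] at h6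
        exact hcon (Or.inr h6)
      · have h8 : bet (n + 1) (pI (n + 1) j (F (n + 1 + j) c)) = bet (n + 1) μ :=
          bet_of_par (star_P hC.mid h2)
        rw [h8] at h5
        exact h5
    rcases cross_or hC.cl hC.cn hC.nonempty (n + 1 + j) (fun c => c)
      (fun c hc c' hc' h h1 h2 => eq_of_isE_P h (hstep c hc).1 (hstep c' hc').1 h1 h2) with
      ⟨K', h1, h2, h3, μ', h4, h5⟩ | ⟨z, hz⟩
    · have h6 := hmin K' h1 (n + 1 + j) μ' ⟨h2, h3, h4, h5⟩
      have h7 : μ' ∈ lv K (n + 1 + j + 1) := by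
        apply lv_mono h1
        rw [h5]; exact Or.inl rfl
      have h8 := (hstep μ' h7).2
      have h9 : bet (n + 1 + j + 1) μ' = bet (n + 1 + j) (P (n + 1 + j) μ') :=
        bet_par_isE (hstep μ' h7).1
      omega
    · obtain ⟨ε₁, ε₂, e1, e2, e3, e4, e5, _⟩ := star_edges hC.mid
      rw [← hC.lv] at e4 e5
      obtain ⟨x, hx, hx1⟩ := e4
      obtain ⟨y, hy, hy1⟩ := e5
      have h1 : ∀ x ∈ K, (Ls (n + 1 + j + 1)).near (x.1 (n + 1 + j + 1)) z := by
        intro x hx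
        obtain ⟨c', h2, h3⟩ := hz (x.1 (n + 1 + j + 1)) (mem_image_of_mem _ hx)
        have h3' : c' = z := h3
        rw [← h3']; exact h2
      have h2 := F_star (h1 x hx) (Lev.near_symm (h1 y hy))
      rw [x.2, y.2] at h2
      have h3 := thread_near_of_le x y (show n + 1 ≤ n + 1 + j by omega) h2
      have hx1' : x.1 (n + 1) = ε₁ := hx1
      have hy1' : y.1 (n + 1) = ε₂ := hy1
      rw [hx1', hy1'] at h3
      exact e3 (near_isE h3 e1 e2)

end

end Pool.Agent.S08340
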