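import Mathlib
import Pool.Agent.Helper783.Continua.H

namespace Pool.Agent.S08340

open Set Relation

theorem par_VE {n : ℕ} {L : Lev} {N : ℕ} {a b : (next n L N).X} (ha : isV a) (hb : isE b)
    (h : (next n L N).adj a b) : par a = par b ∨ (isV (par a) ∧ isE (par b) ∧
      L.adj (par a) (par b)) := by
  rcases cell_cases a with ⟨v, i, rfl⟩ | ⟨v, p, rfl⟩ | ⟨σ, j, hj, rfl⟩ | ⟨σ, j, hj, rfl⟩
  · rw [adj_hub] at h
    rcases h with ⟨p, rfl, _⟩ | ⟨σ, rfl, h, _⟩ | ⟨σ, rfl, h, _⟩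
    · exact Or.inl rfl
    · exact Or.inr ⟨⟨v, rfl⟩, ⟨σ.e, rfl⟩, ⟨false, h⟩⟩
    · exact Or.inr ⟨⟨v, rfl⟩, ⟨σ.e, rfl⟩, ⟨true, h⟩⟩
  · exact (not_isV_isE ha ⟨_, rfl⟩).elim
  · rw [adj_mid] at h
    rcases h with rfl | rfl
    · exact Or.inl rfl
    · exact Or.inl rfl
  · exact (not_isV_isE ha ⟨_, rfl⟩).elim

theorem pI_VE {m : ℕ} : ∀ i (a b : XX (m + i)), isV a → isE b → (Ls (m + i)).adj a b →
    pI m i a = pI m i b ∨ (isV (pI m i a) ∧ isE (pI m i b))
  | 0, _, _, ha, hb, _ => Or.inr ⟨ha, hb⟩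
  | i + 1, a, b, ha, hb, h => by
    rcases par_VE (n := m + i) (L := Ls (m + i)) ha hb h with h1 | ⟨h1, h2, h3⟩
    · exact Or.inl (congrArg (pI m i) h1)
    · exact pI_VE i _ _ h1 h2 h3

/-- The two kinds of ends of an edge. -/
theorem end_cases {n : ℕ} {L : Lev} {N : ℕ} (e : (next n L N).E) (s : Bool) :
    (par (n := n) (L := L) (N := N) (Sum.inr e) = par (n := n) (Sum.inl ((next n L N).bd e s))) ∨
    ∃ σ : L.Strand N, (Sum.inr e : (next n L N).X) = edg n σ (if s then σ.T else 0)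
        (by split_ifs <;> omega) ∧
      par (n := n) (L := L) (N := N) (Sum.inl ((next n L N).bd e s)) = Sum.inl (L.bd σ.e s) := by
  rcases e with ⟨w, p⟩ | ⟨σ, j, hj⟩
  · left
    cases s <;> rfl
  · cases s
    · by_cases h0 : j = 0
      · right
        refine ⟨σ, ?_, ?_⟩
        · subst h0; rfl
        · have h2 : (next n L N).bd (Sum.inr ⟨σ, ⟨j, hj⟩⟩) false =
            Sum.inl (L.bd σ.e false, σ.i false) := dif_pos h0
          rw [h2]; rfl
      · left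
        have h2 : (next n L N).bd (Sum.inr ⟨σ, ⟨j, hj⟩⟩) false =
            Sum.inr ⟨σ, ⟨j - 1, by omega⟩⟩ := dif_neg h0
        rw [h2]; rfl
    · by_cases h0 : j < σ.T
      · left
        have h2 : (next n L N).bd (Sum.inr ⟨σ, ⟨j, hj⟩⟩) true =
            Sum.inr ⟨σ, ⟨j, h0⟩⟩ := dif_pos h0
        rw [h2]; rfl
      · right
        have hj' : j = σ.T := by omega
        refine ⟨σ, ?_, ?_⟩
        · subst hj'; rfl
        · have h2 : (next n L N).bd (Sum.inr ⟨σ, ⟨j, hj⟩⟩) true =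
            Sum.inl (L.bd σ.e true, σ.i true) := dif_neg h0
          rw [h2]; rfl

/-- What is known about edges over `ε₁` whose end is over `μ`. -/
structure Ph (m : ℕ) (v : (Ls m).V) (i : ℕ) (e : (Ls (m + i)).E) : Prop where
  fam : (Ls (m + i)).fam e true = FamS m v (2 ^ m) i
  rt : (Ls (m + i)).rt e true = m
  last : i ≠ 0 → (Ls (m + i)).fam e false = {{Sum.inl ((Ls (m + i)).bd e false)}} ∧
    fI m i (Sum.inl ((Ls (m + i)).bd e false)) = Sum.inl v ∧ fI m i (Sum.inr e) = Sum.inl v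

section
variable {n : ℕ} (σ : (Ls n).Strand (2 ^ (n + 1) + 2)) (a : ℕ) (ha : a < σ.T)

/-- The vertex of the next level which is the middle vertex. -/
def mv : (Ls (n + 1)).V := (Sum.inr ⟨σ, ⟨a, ha⟩⟩ : NV (Ls n) (2 ^ (n + 1) + 2))

theorem phi : ∀ i (e : (Ls (n + 1 + i)).E) (s : Bool),
    pI (n + 1) i (Sum.inr e) = edg n σ a ha.le →
    pI (n + 1) i (Sum.inl ((Ls (n + 1 + i)).bd e s)) = mid n σ a ha →
    s = true ∧ Ph (n + 1) (mv σ a ha) i e
  | 0, e, s, h1, h2 => by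
    have h1' : e = Sum.inr ⟨σ, ⟨a, Nat.lt_succ_of_le ha.le⟩⟩ := Sum.inr.inj h1
    have h2' : (Ls (n + 1)).bd e s = Sum.inr ⟨σ, ⟨a, ha⟩⟩ := Sum.inl.inj h2
    have h3 : (Ls (n + 1)).bd e true = Sum.inr ⟨σ, ⟨a, ha⟩⟩ := by
      rw [h1']; exact dif_pos ha
    refine ⟨?_, ?_, ?_, fun h => absurd rfl h⟩
    · cases s
      · exact absurd (h2'.trans h3.symm) ((inv_Ls (n + 1)).bd_ne e)
      · rfl
    · have h4 : (Ls (n + 1)).fam e true = {{Sum.inl ((Ls (n + 1)).bd e true)}} := by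
        rw [h1']; exact if_pos ha
      show (Ls (n + 1)).fam e true = {{Sum.inl (mv σ a ha)}}
      rw [h4, h3]; rfl
    · show (Ls (n + 1)).rt e true = n + 1
      rw [h1']; exact if_pos ha
  | i + 1, e, s, h1, h2 => by
    rcases end_cases (n := n + 1 + i) (L := Ls (n + 1 + i)) e s with h | ⟨σ', h3, h4⟩
    · exfalso
      have h5 := congrArg (pI (n + 1) i) h
      have h6 : edg n σ a ha.le = mid n σ a ha := h1.symm.trans (h5.trans h2)
      cases h6
    · have h5 : pI (n + 1) i (Sum.inl ((Ls (n + 1 + i)).bd σ'.e s)) = mid n σ a ha :=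
        (congrArg (pI (n + 1) i) h4).symm.trans h2
      have h6 : pI (n + 1) i (Sum.inr σ'.e) = edg n σ a ha.le :=
        (congrArg (pI (n + 1) (i + 1)) h3).symm.trans h1
      obtain ⟨h7, h8⟩ := phi i σ'.e s h6 h5
      subst h7
      have hT : 0 < σ'.T := σ'.T_pos (inv_Ls (n + 1 + i)).bd_ne
      have he : e = Sum.inr ⟨σ', ⟨σ'.T, Nat.lt_succ_self _⟩⟩ := Sum.inr.inj h3
      have hv : fI (n + 1) i (Sum.inl ((Ls (n + 1 + i)).bd σ'.e true)) = mid n σ a ha := by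
        rw [fI_of_pI i _ (by rw [h5]; exact ⟨_, rfl⟩), h5]
      refine ⟨rfl, ?_, ?_, fun _ => ⟨?_, ?_, ?_⟩⟩
      · have h9 : (Ls (n + 1 + i + 1)).fam e true =
            ExtFam ((Ls (n + 1 + i)).fam σ'.e true) (2 ^ (Ls (n + 1 + i)).rt σ'.e true) := by
          rw [he]; exact if_neg (lt_irrefl _)
        show (Ls (n + 1 + i + 1)).fam e true = ExtFam (FamS (n + 1) (mv σ a ha) (2 ^ (n + 1)) i) _
        rw [h9, h8.fam, h8.rt]
      · have h9 : (Ls (n + 1 + i + 1)).rt e true = (Ls (n + 1 + i)).rt σ'.e true := by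
          rw [he]; exact if_neg (lt_irrefl _)
        show (Ls (n + 1 + i + 1)).rt e true = n + 1
        rw [h9, h8.rt]
      · rw [he]; exact if_neg hT.ne'
      · have h9 : (Ls (n + 1 + i + 1)).bd e false = Sum.inr ⟨σ', ⟨σ'.T - 1, by omega⟩⟩ := by
          rw [he]; exact dif_neg hT.ne'
        show fI (n + 1) i (F (n + 1 + i) (Sum.inl ((Ls (n + 1 + i + 1)).bd e false))) = _
        rw [h9]
        show fI (n + 1) i (σ'.x (σ'.T - 1 + 1)) = _
        rw [Nat.sub_add_cancel hT, σ'.isTour.2.1]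
        exact hv
      · show fI (n + 1) i (F (n + 1 + i) (Sum.inr e)) = _
        rw [he]
        show fI (n + 1) i (σ'.x σ'.T) = _
        rw [σ'.isTour.2.1]
        exact hv

end

end Pool.Agent.S08340
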