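import Mathlib
import Pool.Agent.Helper783.Continua.J

namespace Pool.Agent.S08340

open Set Relation

section
variable {K : Set Th} {n : ℕ} {σ : (Ls n).Strand (2 ^ (n + 1) + 2)} {a : ℕ} {ha : a < σ.T}

/-- Threads through an edge of the star stay over that edge. -/
theorem over_edge (hC : Cr K n (mid n σ a ha))
    (hmin : ∀ K' ⊆ K, ∀ n' μ', Cr K' n' μ' → bet (n + 1) (mid n σ a ha) ≤ bet (n' + 1) μ')
    (j : ℕ) {ε : XX (n + 1)} (hε : isE ε) (hεS : ε ∈ Star (n := n + 1) (mid n σ a ha))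
    {c : XX (n + 1 + j)} (hc : c ∈ lv K (n + 1 + j)) (hf : fI (n + 1) j c = ε) :
    pI (n + 1) j c = ε := by
  have h1 := over_star hC hmin j c hc
  have h2 : bet (n + 1) (pI (n + 1) j c) = bet (n + 1) (mid n σ a ha : XX (n + 1)) :=
    bet_of_par (star_P hC.mid h1)
  have h3 : bet (n + 1) ε = bet (n + 1) (mid n σ a ha : XX (n + 1)) :=
    bet_of_par (star_P hC.mid hεS)
  rcases fI_pI_bet j c with h | h | h
  · rw [← h, hf]
  · rw [hf] at h
    exact (not_isV_isE h hε).elim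
  · rw [hf, h2, h3] at h
    exact absurd h (lt_irrefl _)

/-- Strands over `ε₁` leading to `μ`. -/
def Tg (σ : (Ls n).Strand (2 ^ (n + 1) + 2)) (a : ℕ) (ha : a < σ.T) (i : ℕ)
    (σ' : (Ls (n + 1 + i)).Strand (2 ^ (n + 1 + i + 1) + 2)) : Prop :=
  pI (n + 1) i (Sum.inr σ'.e) = edg n σ a ha.le ∧
    pI (n + 1) i (Sum.inl ((Ls (n + 1 + i)).bd σ'.e true)) = mid n σ a ha

/-- The state of a walk. -/
def St (K : Set Th) (σ : (Ls n).Strand (2 ^ (n + 1) + 2)) (a : ℕ) (ha : a < σ.T) (i : ℕ)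
    (b : XX (n + 1 + i + 1)) : Prop :=
  pI (n + 1) (i + 1) b = edg n σ a ha.le ∧ ∀ σ', Tg σ a ha i σ' →
    (∀ k hk, b = edg (n + 1 + i) σ' k hk →
      ∀ k' hk', k' ≤ k → edg (n + 1 + i) σ' k' hk' ∈ lv K (n + 1 + i + 1)) ∧
    (∀ k hk, b = mid (n + 1 + i) σ' k hk →
      ∀ k' hk', k' ≤ k → edg (n + 1 + i) σ' k' hk' ∈ lv K (n + 1 + i + 1))

theorem edg_inj {m : ℕ} {L : Lev} {N : ℕ} {σ τ : L.Strand N} {j k : ℕ} {hj : j ≤ σ.T} {hk : k ≤ τ.T}
    (h : edg m σ j hj = edg m τ k hk) : σ = τ ∧ j = k := by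
  have h1 := Sum.inr.inj h
  have h2 := Sum.inr.inj h1
  obtain ⟨h3, h4⟩ := Sigma.mk.inj h2
  subst h3
  have h5 := congrArg Fin.val (eq_of_heq h4)
  exact ⟨rfl, h5⟩

theorem mid_inj {m : ℕ} {L : Lev} {N : ℕ} {σ τ : L.Strand N} {j k : ℕ} {hj : j < σ.T} {hk : k < τ.T}
    (h : mid m σ j hj = mid m τ k hk) : σ = τ ∧ j = k := by
  have h1 := Sum.inl.inj h
  have h2 := Sum.inr.inj h1
  obtain ⟨h3, h4⟩ := Sigma.mk.inj h2
  subst h3
  have h5 := congrArg Fin.val (eq_of_heq h4)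
  exact ⟨rfl, h5⟩

theorem edg_ne_mid {m : ℕ} {L : Lev} {N : ℕ} {σ τ : L.Strand N} {j k : ℕ} {hj : j ≤ σ.T}
    {hk : k < τ.T} : edg m σ j hj ≠ mid m τ k hk := by
  intro h; cases h

theorem passing (hC : Cr K n (mid n σ a ha))
    (hmin : ∀ K' ⊆ K, ∀ n' μ', Cr K' n' μ' → bet (n + 1) (mid n σ a ha) ≤ bet (n' + 1) μ')
    (i : ℕ) (hi : i ≠ 0) :
    ∃ σ', Tg σ a ha i σ' ∧
      ∀ k hk, edg (n + 1 + i) σ' k hk ∈ lv K (n + 1 + i + 1) := by
  by_contra hno
  push Not at hno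
  have hE1 : Star (n := n + 1) (mid n σ a ha) (edg n σ a ha.le) :=
    Or.inr ((adj_mid (n := n) (L := Ls n)).2 (Or.inl rfl))
  have hE2 : Star (n := n + 1) (mid n σ a ha) (edg n σ (a + 1) ha) :=
    Or.inr ((adj_mid (n := n) (L := Ls n)).2 (Or.inr rfl))
  have hE1' := hE1
  have hE2' := hE2
  rw [← hC.lv] at hE1' hE2'
  obtain ⟨x₁, hx₁, hx₁e⟩ := hE1'
  obtain ⟨x₂, hx₂, hx₂e⟩ := hE2'
  have h1 : pI (n + 1) (i + 1) (x₁.1 (n + 1 + i + 1)) = edg n σ a ha.le :=
    over_edge hC hmin (i + 1) ⟨_, rfl⟩ hE1 (mem_image_of_mem _ hx₁)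
      ((thread_fI x₁ (n + 1) (i + 1)).trans hx₁e)
  have h2 : pI (n + 1) (i + 1) (x₂.1 (n + 1 + i + 1)) = edg n σ (a + 1) ha :=
    over_edge hC hmin (i + 1) ⟨_, rfl⟩ hE2 (mem_image_of_mem _ hx₂)
      ((thread_fI x₂ (n + 1) (i + 1)).trans hx₂e)
  -- the starting cell is not on a target strand
  have hstart : St K σ a ha i (x₁.1 (n + 1 + i + 1)) := by
    refine ⟨h1, ?_⟩
    intro σ' hT
    have hbad : ∀ c : XX (n + 1 + i), (c ∈ σ'.D false ∨ c ∈ σ'.D true ∨ c = Sum.inr σ'.e) →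
        F (n + 1 + i) (x₁.1 (n + 1 + i + 1)) = c → False := by
      intro c hc hF
      have hph := (phi σ a ha i σ'.e true hT.1 hT.2).2
      obtain ⟨h3, h4, h5⟩ := hph.last hi
      have h6 : fI (n + 1) i c = mid n σ a ha := by
        rcases hc with hc | hc | hc
        · have h7 := σ'.mem false
          rw [h3] at h7
          have h8 := mem_singleton_iff.1 h7
          rw [h8] at hc
          have h9 := mem_singleton_iff.1 hc
          rw [h9]; exact h4
        · have h7 := σ'.mem true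
          rw [hph.fam] at h7
          have h8 := famS_pI i _ h7 c hc
          rw [fI_of_pI i c (by rw [h8]; exact ⟨_, rfl⟩), h8]
          rfl
        · rw [hc]; exact h5
      have h7 : fI (n + 1) i (F (n + 1 + i) (x₁.1 (n + 1 + i + 1))) = edg n σ a ha.le :=
        (thread_fI x₁ (n + 1) (i + 1)).trans hx₁e
      rw [hF] at h7
      exact edg_ne_mid (h7.symm.trans h6)
    constructor
    · intro k hk hb
      exfalso
      refine hbad (σ'.x k) ?_ ?_
      · exact σ'.isTour.2.2.2.1 k hk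
      · rw [hb]; rfl
    · intro k hk hb
      exfalso
      refine hbad (σ'.x (k + 1)) ?_ ?_
      · exact σ'.isTour.2.2.2.1 (k + 1) hk
      · rw [hb]; rfl
  -- the state is preserved
  have hstep : ∀ x ∈ lv K (n + 1 + i + 1), ∀ y ∈ lv K (n + 1 + i + 1),
      (Ls (n + 1 + i + 1)).near x y → St K σ a ha i x → St K σ a ha i y := by
    rintro x hx y hy (rfl | hxy) hSt
    · exact hSt
    have hover : pI (n + 1) (i + 1) y = edg n σ a ha.le := by
      have h3 := pI_near (m := n + 1) (i + 1) x y (Or.inr hxy)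
      rw [hSt.1] at h3
      have h4 := over_star hC hmin (i + 1) y hy
      rcases isV_or_isE (pI (n + 1) (i + 1) y) with h5 | h5
      · exfalso
        have h6 := star_isV hC.mid h4 h5
        rcases isV_or_isE x with hxV | hxE
        · have hyE : isE y := by
            rcases isV_or_isE y with h | h
            · obtain ⟨v, rfl⟩ := hxV
              obtain ⟨w, rfl⟩ := h
              exact hxy.elim
            · exact h
          rcases pI_VE (m := n + 1) (i + 1) x y hxV hyE hxy with h7 | ⟨h7, _⟩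
          · rw [hSt.1, h6] at h7
            exact edg_ne_mid h7
          · rw [hSt.1] at h7
            exact not_isV_isE h7 ⟨_, rfl⟩
        · obtain ⟨e, rfl⟩ := hxE
          rcases y with w | e'
          · obtain ⟨s, hs⟩ := hxy
            subst hs
            rcases end_cases (n := n + 1 + i) (L := Ls (n + 1 + i)) e s with h | ⟨σ', h7, h8⟩
            · have h9 := congrArg (pI (n + 1) i) h
              exact edg_ne_mid (hSt.1.symm.trans (h9.trans h6))
            · have h9 : pI (n + 1) i (Sum.inl ((Ls (n + 1 + i)).bd σ'.e s)) = mid n σ a ha :=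
                (congrArg (pI (n + 1) i) h8).symm.trans h6
              have h10 : pI (n + 1) i (Sum.inr σ'.e) = edg n σ a ha.le :=
                (congrArg (pI (n + 1) (i + 1)) h7).symm.trans hSt.1
              have h11 := (phi σ a ha i σ'.e s h10 h9).1
              subst h11
              obtain ⟨k, hk, h12⟩ := hno σ' ⟨h10, h9⟩
              apply h12
              refine (hSt.2 σ' ⟨h10, h9⟩).1 σ'.T le_rfl h7 k hk hk
          · exact hxy.elim
      · exact (near_isE h3 ⟨_, rfl⟩ h5).symm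
    refine ⟨hover, ?_⟩
    intro σ' hT
    have hyx := Lev.adj_symm hxy
    constructor
    · intro k hk hyk k' hk' hkk
      by_cases hkk' : k' = k
      · subst hkk'
        rw [← hyk]; exact hy
      rw [hyk] at hyx
      have h3 := (adj_edg (n := n + 1 + i) (L := Ls (n + 1 + i))).1 hyx
      rcases h3 with ⟨h4, h5⟩ | ⟨h', h0, h5⟩ | ⟨h', h5⟩ | ⟨h4, h5⟩
      · omega
      · exact (hSt.2 σ' hT).2 (k - 1) h' h5 k' hk' (by omega)
      · exact (hSt.2 σ' hT).2 k h' h5 k' hk' hkk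
      · exfalso
        have h6 : pI (n + 1) (i + 1) x = mid n σ a ha := by
          rw [h5]; exact hT.2
        exact edg_ne_mid (hSt.1.symm.trans h6)
    · intro k hk hyk k' hk' hkk
      rw [hyk] at hyx
      have h3 := (adj_mid (n := n + 1 + i) (L := Ls (n + 1 + i))).1 hyx
      rcases h3 with h5 | h5
      · exact (hSt.2 σ' hT).1 k hk.le h5 k' hk' hkk
      · exact (hSt.2 σ' hT).1 (k + 1) hk h5 k' hk' (by omega)
  have hend := (hC.cn (n + 1 + i + 1)).induct (mem_image_of_mem (fun x : Th => x.1 _) hx₁) hstart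
    hstep _ (mem_image_of_mem (fun x : Th => x.1 _) hx₂)
  have h3 : (edg n σ a ha.le : XX (n + 1)) = edg n σ (a + 1) ha := hend.1.symm.trans h2
  have h4 := (edg_inj h3).2
  omega

theorem fat_of_cross (hC : Cr K n (mid n σ a ha))
    (hmin : ∀ K' ⊆ K, ∀ n' μ', Cr K' n' μ' → bet (n + 1) (mid n σ a ha) ≤ bet (n' + 1) μ') :
    ∀ j, ∃ D ∈ FamS (n + 1) (mv σ a ha) (2 ^ (n + 1)) j, D ⊆ lv K (n + 1 + j) := by
  intro i
  by_cases hi : i = 0
  · subst hi
    refine ⟨{Sum.inl (mv σ a ha)}, rfl, ?_⟩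
    intro c hc
    have hc' : c = mid n σ a ha := hc
    rw [hc']
    show (mid n σ a ha : XX (n + 1)) ∈ lv K (n + 1)
    rw [hC.lv]
    exact Or.inl rfl
  · obtain ⟨σ', hT, hσ'⟩ := passing hC hmin i hi
    have hph := (phi σ a ha i σ'.e true hT.1 hT.2).2
    refine ⟨σ'.D true, ?_, ?_⟩
    · rw [← hph.fam]; exact σ'.mem true
    · intro c hc
      obtain ⟨k, hk, hx⟩ := σ'.isTour.2.2.2.2 c (Or.inr (Or.inl hc))
      rw [← lv_F]
      exact ⟨_, hσ' k hk, hx⟩

end

/-- Every nondegenerate continuum is fat at some vertex. -/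
theorem fat_of_nd {K : Set Th} (hK : Nd K) : ∃ (m : ℕ) (v : (Ls m).V), ∃ K' ⊆ K, IsCl K' ∧
    ∀ j, ∃ D ∈ FamS m v (2 ^ m) j, D ⊆ lv K' (m + j) := by
  obtain ⟨K', h1, n, μ, h2, h3⟩ := exists_min_cross hK
  obtain ⟨σ, a, ha, rfl⟩ := h2.mid
  exact ⟨n + 1, mv σ a ha, K', h1, h2.cl, fat_of_cross h2 h3⟩

end Pool.Agent.S08340
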