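import Mathlib
import Pool.Agent.Helper783.Continua.K

namespace Pool.Agent.S08340

open Set Relation

/-- Removing some colours at every level. -/
def Av (r : ∀ n, Finset (Fin (2 ^ (n + 1) + 2))) : ∀ n, Set (XX n)
  | 0 => univ
  | n + 1 => Ext (L := Ls n) (N := 2 ^ (n + 1) + 2) (Av r n) (r n)

section
variable (r : ∀ n, Finset (Fin (2 ^ (n + 1) + 2))) (hr : ∀ n, (r n).card ≤ 1)

theorem univ_zero : (univ : Set (XX 0)) = {Sum.inl ()} := by
  ext c
  constructor
  · intro _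
    rcases c with v | e
    · rfl
    · exact e.elim
  · intro _; trivial

include hr in
theorem av_good : ∀ n, (Ls n).Good 1 (Av r n)
  | 0 => by
    show (Ls 0).Good 1 (univ : Set (XX 0))
    rw [univ_zero]
    exact good_vertex _ _
  | n + 1 => good_ext (inv_Ls n) Nat.one_le_two_pow (by omega) (av_good n) (hr n)

include hr in
theorem av_F (n : ℕ) : F n '' Av r (n + 1) = Av r n :=
  fm_ext (inv_Ls n) (av_good r hr n) (lt_of_le_of_lt (hr n)
    (by have := Nat.one_le_two_pow (n := n + 1); omega))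

include hr in
theorem av_nd : Nd {x : Th | ∀ n, x.1 n ∈ Av r n} := by
  obtain ⟨h1, h2⟩ := exists_set (Av r) (fun n => (av_good r hr n).ne) (av_F r hr)
  refine ⟨h1, fun n => by rw [h2]; exact (av_good r hr n).conn, ?_⟩
  obtain ⟨i, hi⟩ : ∃ i, i ∉ r 0 :=
    exists_color (lt_of_le_of_lt (hr 0) (by norm_num))
  obtain ⟨j, hj⟩ : ∃ j, j ∉ insert i (r 0) := exists_color (by
    have h1 := Finset.card_insert_le i (r 0)
    have h2 := hr 0
    have h3 : (insert i (r 0)).card ≤ 2 := by omega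
    exact lt_of_le_of_lt h3 (by norm_num))
  simp only [Finset.mem_insert, not_or] at hj
  have e1 : (hub 0 () i : XX 1) ∈ Av r 1 := by
    refine ⟨?_, hi⟩
    show (Sum.inl () : XX 0) ∈ (univ : Set (XX 0))
    trivial
  have e2 : (hub 0 () j : XX 1) ∈ Av r 1 := by
    refine ⟨?_, hj.2⟩
    show (Sum.inl () : XX 0) ∈ (univ : Set (XX 0))
    trivial
  rw [← h2 1] at e1 e2
  obtain ⟨x, hx, hx1⟩ := e1
  obtain ⟨y, hy, hy1⟩ := e2
  refine ⟨x, hx, y, hy, 1, ?_⟩
  have hx1' : x.1 1 = hub 0 () i := hx1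
  have hy1' : y.1 1 = hub 0 () j := hy1
  rw [hx1', hy1']
  rintro (h | h)
  · have h1 := Sum.inl.inj h
    have h2 := Sum.inl.inj h1
    exact hj.1 (congrArg Prod.snd h2).symm
  · exact h.elim

end

theorem ext_univ {n : ℕ} {L : Lev} {N : ℕ} : Ext (N := N) (univ : Set L.X) ∅ = univ := by
  ext c
  constructor
  · intro _; trivial
  · intro _
    rcases cell_cases (n := n) c with ⟨v, i, rfl⟩ | ⟨v, p, rfl⟩ | ⟨σ, j, hj, rfl⟩ | ⟨σ, j, hj, rfl⟩
    · exact ⟨trivial, by simp⟩
    · exact ⟨trivial, by simp, by simp⟩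
    · exact ⟨trivial, fun s => ⟨subset_univ _, by simp⟩⟩
    · exact ⟨trivial, fun s => ⟨subset_univ _, by simp⟩⟩

theorem av_univ : ∀ n, Av (fun _ => ∅) n = univ
  | 0 => rfl
  | n + 1 => by
    show Ext (L := Ls n) (N := 2 ^ (n + 1) + 2) (Av (fun _ => ∅) n) ∅ = univ
    rw [av_univ n]
    exact ext_univ (n := n)

theorem nd_univ : Nd (univ : Set Th) := by
  have h := av_nd (fun _ => ∅) (fun _ => by simp)
  have h2 : {x : Th | ∀ n, x.1 n ∈ Av (fun _ => ∅) n} = univ := by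
    ext x
    refine ⟨fun _ => trivial, fun _ n => ?_⟩
    rw [av_univ]; trivial
  rw [h2] at h
  exact h

instance : Nonempty Th := by
  obtain ⟨x, _, _⟩ := nd_univ.two
  exact ⟨x⟩

theorem exists_bad_color {n : ℕ} {L : Lev} {N : ℕ} (c : (next n L N).X) :
    ∃ i : Fin N, ∀ D : Set L.X, c ∉ Ext D {i} := by
  rcases cell_cases c with ⟨v, i, rfl⟩ | ⟨v, p, rfl⟩ | ⟨σ, j, hj, rfl⟩ | ⟨σ, j, hj, rfl⟩
  · exact ⟨i, fun D h => h.2 (Finset.mem_singleton_self _)⟩
  · exact ⟨p.1.1, fun D h => h.2.1 (Finset.mem_singleton_self _)⟩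
  · exact ⟨σ.i false, fun D h => (h.2 false).2 (Finset.mem_singleton_self _)⟩
  · exact ⟨σ.i false, fun D h => (h.2 false).2 (Finset.mem_singleton_self _)⟩

/-- Countable sets of threads can be avoided. -/
theorem exists_avoid (T : Set Th) (hT : T.Countable) : ∃ K : Set Th, Nd K ∧ Disjoint K T := by
  obtain ⟨t, ht⟩ := Set.countable_iff_exists_subset_range.1 hT
  choose i hi using fun n => exists_bad_color (n := n) (L := Ls n) (N := 2 ^ (n + 1) + 2)
    ((t n).1 (n + 1))
  refine ⟨_, av_nd (fun n => {i n}) (fun n => by simp), ?_⟩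
  rw [Set.disjoint_left]
  intro x hx hxT
  obtain ⟨n, rfl⟩ := ht hxT
  exact hi n _ (hx (n + 1))

/-- Classes of threads have at most two elements. -/
theorem class_two (x y z : Th) (hxy : ∀ n, (Ls n).near (x.1 n) (y.1 n))
    (hxz : ∀ n, (Ls n).near (x.1 n) (z.1 n)) (hyz : ∀ n, (Ls n).near (y.1 n) (z.1 n))
    (h1 : x ≠ y) (h2 : x ≠ z) : y = z := by
  by_contra h3
  have key : ∀ x y : Th, x ≠ y → ∃ n, x.1 n ≠ y.1 n := by
    intro x y h
    by_contra hc
    push Not at hc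
    exact h (Subtype.ext (funext hc))
  obtain ⟨a, ha⟩ := key x y h1
  obtain ⟨b, hb⟩ := key x z h2
  obtain ⟨c, hc⟩ := key y z h3
  set N := max a (max b c) with hN
  have hab : x.1 N ≠ y.1 N := fun h => ha (thread_eq_of_le x y (by omega) h)
  have hac : x.1 N ≠ z.1 N := fun h => hb (thread_eq_of_le x z (by omega) h)
  have hbc : y.1 N ≠ z.1 N := fun h => hc (thread_eq_of_le y z (by omega) h)
  rcases isV_or_isE (x.1 N) with hx | hx <;> rcases isV_or_isE (y.1 N) with hy | hy <;>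
    rcases isV_or_isE (z.1 N) with hz | hz
  · exact hab (near_isV (hxy N) hx hy)
  · exact hab (near_isV (hxy N) hx hy)
  · exact hac (near_isV (hxz N) hx hz)
  · exact hbc (near_isE (hyz N) hy hz)
  · exact hbc (near_isV (hyz N) hy hz)
  · exact hac (near_isE (hxz N) hx hz)
  · exact hab (near_isE (hxy N) hx hy)
  · exact hab (near_isE (hxy N) hx hy)

end Pool.Agent.S08340
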