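import Mathlib
import Pool.Agent.Helper783.Continua.L

namespace Pool.Agent.S08340

open Set Relation Filter Uniformity Topology

/-- The basic entourages. -/
def VV (n : ℕ) : Set (Th × Th) := {p | (Ls n).near (p.1.1 n) (p.2.1 n)}

theorem vv_anti {n N : ℕ} (h : n ≤ N) : VV N ⊆ VV n :=
  fun p hp => thread_near_of_le p.1 p.2 h hp

/-- The basis of the uniformity. -/
def thBasis : FilterBasis (Th × Th) where
  sets := range VV
  nonempty := ⟨_, 0, rfl⟩
  inter_sets := by
    rintro _ _ ⟨n, rfl⟩ ⟨m, rfl⟩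
    exact ⟨VV (max n m), ⟨_, rfl⟩, subset_inter (vv_anti (le_max_left _ _))
      (vv_anti (le_max_right _ _))⟩

noncomputable instance thUnif : UniformSpace Th :=
  UniformSpace.ofCore (UniformSpace.Core.mkOfBasis thBasis
    (by rintro _ ⟨n, rfl⟩ x; exact Or.inl rfl)
    (by rintro _ ⟨n, rfl⟩; exact ⟨VV n, ⟨n, rfl⟩, fun p hp => Lev.near_symm hp⟩)
    (by
      rintro _ ⟨n, rfl⟩
      refine ⟨VV (n + 1), ⟨n + 1, rfl⟩, ?_⟩
      rintro ⟨x, y⟩ ⟨z, h1, h2⟩
      have h3 := F_star (n := n) (a := x.1 (n + 1)) (b := y.1 (n + 1)) (c := z.1 (n + 1)) h1 h2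
      rw [x.2, y.2] at h3
      exact h3))

theorem th_basis : (𝓤 Th).HasBasis (fun _ : ℕ => True) VV := by
  have h : (𝓤 Th).HasBasis (fun s => s ∈ thBasis) id := thBasis.hasBasis
  refine h.to_hasBasis ?_ ?_
  · rintro _ ⟨n, rfl⟩
    exact ⟨n, trivial, subset_rfl⟩
  · intro n _
    exact ⟨VV n, ⟨n, rfl⟩, subset_rfl⟩

instance : IsCountablyGenerated (𝓤 Th) := th_basis.isCountablyGenerated

/-- Closed sets of threads are compact. -/
theorem isCompact_of_isCl {K : Set Th} (hK : IsCl K) : IsCompact K := by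
  rw [isCompact_iff_ultrafilter_le_nhds]
  intro f hf
  have hKf : K ∈ f := by
    rw [← Ultrafilter.mem_coe]; exact hf (mem_principal_self K)
  have h1 : ∀ n, ∃ c : XX n, {x : Th | x.1 n = c} ∈ f := by
    intro n
    obtain ⟨c, hc⟩ := Ultrafilter.eq_pure_of_finite (f.map (fun x : Th => x.1 n))
    refine ⟨c, ?_⟩
    have h2 : ({c} : Set (XX n)) ∈ f.map (fun x : Th => x.1 n) := by
      rw [hc]; exact rfl
    exact h2
  choose c hc using h1
  have h2 : ∀ n, F n (c (n + 1)) = c n := by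
    intro n
    obtain ⟨x, hx1, hx2⟩ := Ultrafilter.nonempty_of_mem (inter_mem (hc (n + 1)) (hc n))
    have h3 := x.2 n
    have hx1' : x.1 (n + 1) = c (n + 1) := hx1
    have hx2' : x.1 n = c n := hx2
    rw [hx1', hx2'] at h3
    exact h3
  refine ⟨⟨c, h2⟩, ?_, ?_⟩
  · apply hK
    intro n
    obtain ⟨x, hx1, hx2⟩ := Ultrafilter.nonempty_of_mem (inter_mem (hc n) hKf)
    exact ⟨x, hx2, hx1⟩
  · have h3 := nhds_basis_uniformity' th_basis (x := (⟨c, h2⟩ : Th))
    rw [h3.ge_iff]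
    intro n _
    refine mem_of_superset (hc n) ?_
    intro x hx
    exact Or.inl hx.symm

/-- The continuum. -/
abbrev MM : Type := SeparationQuotient Th

theorem mk_eq {x y : Th} : (SeparationQuotient.mk x : MM) = SeparationQuotient.mk y ↔
    ∀ n, (Ls n).near (x.1 n) (y.1 n) := by
  rw [SeparationQuotient.mk_eq_mk, inseparable_iff_ker_uniformity, Filter.mem_ker]
  constructor
  · intro h n; exact h _ (th_basis.mem_of_mem (i := n) trivial)
  · intro h s hs
    obtain ⟨n, _, hn⟩ := th_basis.mem_iff.1 hs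
    exact hn (h n)

instance : IsCountablyGenerated (𝓤 MM) := by
  rw [SeparationQuotient.uniformity_eq]
  infer_instance

noncomputable instance : MetricSpace MM := UniformSpace.metricSpace MM

instance : CompactSpace MM := by
  refine ⟨?_⟩
  have h1 : IsCompact (univ : Set Th) := isCompact_of_isCl nd_univ.cl
  have h2 := h1.image (SeparationQuotient.continuous_mk (X := Th))
  rw [image_univ, SeparationQuotient.range_mk] at h2
  exact h2

/-- Closed connected sets of threads give subcontinua. -/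
theorem preconn_of_acn {K : Set Th} (hK : IsCl K) (hc : ACn K) :
    IsPreconnected ((SeparationQuotient.mk : Th → MM) '' K) := by
  rw [isPreconnected_closed_iff]
  intro t t' ht ht' hcov hA hB
  by_contra hne
  rw [Set.not_nonempty_iff_eq_empty] at hne
  have hcomp : IsCompact ((SeparationQuotient.mk : Th → MM) '' K) :=
    (isCompact_of_isCl hK).image SeparationQuotient.continuous_mk
  have h1 : IsCompact (((SeparationQuotient.mk : Th → MM) '' K) ∩ t) := hcomp.inter_right ht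
  have h2 : IsClosed (((SeparationQuotient.mk : Th → MM) '' K) ∩ t') :=
    (hcomp.inter_right ht').isClosed
  have h3 : Disjoint (((SeparationQuotient.mk : Th → MM) '' K) ∩ t)
      (((SeparationQuotient.mk : Th → MM) '' K) ∩ t') := by
    rw [Set.disjoint_left]
    rintro x ⟨hx, hxt⟩ ⟨_, hxt'⟩
    have : x ∈ (∅ : Set MM) := by rw [← hne]; exact ⟨hx, hxt, hxt'⟩
    exact this
  obtain ⟨V, hV, hdis⟩ := h3.exists_uniform_thickening h1 h2
  have h4 := SeparationQuotient.uniformContinuous_mk (α := Th) hV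
  obtain ⟨n, _, hn⟩ := th_basis.mem_iff.1 h4
  rw [Set.disjoint_left] at hdis
  have hsep : ∀ x ∈ K, (SeparationQuotient.mk x : MM) ∈ t → ∀ y ∈ K,
      (SeparationQuotient.mk y : MM) ∈ t' → ¬ (Ls n).near (x.1 n) (y.1 n) := by
    intro x hx hxt y hy hyt hnear
    have h5 : ((SeparationQuotient.mk x : MM), (SeparationQuotient.mk y : MM)) ∈ V :=
      hn (show (x, y) ∈ VV n from hnear)
    refine hdis (a := (SeparationQuotient.mk y : MM)) ?_ ?_
    · refine mem_iUnion₂.2 ⟨SeparationQuotient.mk x, ⟨mem_image_of_mem _ hx, hxt⟩, h5⟩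
    · refine mem_iUnion₂.2 ⟨SeparationQuotient.mk y, ⟨mem_image_of_mem _ hy, hyt⟩, ?_⟩
      exact refl_mem_uniformity hV
  obtain ⟨_, ⟨a, ha, rfl⟩, hat⟩ := hA
  obtain ⟨_, ⟨b, hb, rfl⟩, hbt⟩ := hB
  have hall : ∀ c ∈ lv K n, ∃ x ∈ K, (SeparationQuotient.mk x : MM) ∈ t ∧ x.1 n = c := by
    refine (hc n).induct (mem_image_of_mem (fun x : Th => x.1 n) ha) ⟨a, ha, hat, rfl⟩ ?_
    rintro c hc d ⟨y, hy, rfl⟩ hcd ⟨x, hx, hxt, rfl⟩
    rcases hcov (mem_image_of_mem _ hy) with h | h
    · exact ⟨y, hy, h, rfl⟩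
    · exact absurd hcd (hsep x hx hxt y hy h)
  obtain ⟨x, hx, hxt, hxb⟩ := hall _ (mem_image_of_mem (fun x : Th => x.1 n) hb)
  exact hsep x hx hxt b hb hbt (Or.inl hxb)

/-- Nondegenerate closed connected sets of threads give nondegenerate subcontinua. -/
theorem cont_of_nd {K : Set Th} (hK : Nd K) :
    IsCompact ((SeparationQuotient.mk : Th → MM) '' K) ∧
    IsConnected ((SeparationQuotient.mk : Th → MM) '' K) ∧
    ((SeparationQuotient.mk : Th → MM) '' K).Nontrivial := by
  obtain ⟨x, hx, y, hy, n, hn⟩ := hK.two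
  refine ⟨(isCompact_of_isCl hK.cl).image SeparationQuotient.continuous_mk,
    ⟨⟨_, mem_image_of_mem _ hx⟩, preconn_of_acn hK.cl hK.cn⟩,
    _, mem_image_of_mem _ hx, _, mem_image_of_mem _ hy, ?_⟩
  intro h
  exact hn (mk_eq.1 h n)

instance : ConnectedSpace MM := by
  have h := (cont_of_nd nd_univ).2.1
  rw [image_univ, SeparationQuotient.range_mk] at h
  exact connectedSpace_iff_univ.2 h

/-- Nondegenerate subcontinua give nondegenerate closed connected sets of threads. -/
theorem nd_of_cont {C : Set MM} (h1 : IsCompact C) (h2 : IsConnected C) (h3 : C.Nontrivial) :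
    Nd ((SeparationQuotient.mk : Th → MM) ⁻¹' C) := by
  set K := (SeparationQuotient.mk : Th → MM) ⁻¹' C with hK
  have himg : (SeparationQuotient.mk : Th → MM) '' K = C :=
    image_preimage_eq _ SeparationQuotient.surjective_mk
  refine ⟨?_, ?_, ?_⟩
  · intro x hx
    have hcl : IsClosed K := h1.isClosed.preimage SeparationQuotient.continuous_mk
    rw [← hcl.closure_eq]
    rw [mem_closure_iff_nhds_basis (nhds_basis_uniformity' th_basis)]
    intro n _
    obtain ⟨y, hy, hyx⟩ := hx n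
    exact ⟨y, hy, Or.inl hyx.symm⟩
  · intro n
    have hpre : IsPreconnected K := by
      rw [← SeparationQuotient.isInducing_mk.isPreconnected_image, himg]
      exact h2.2
    intro c hc d hd
    by_contra hcd
    set A : Set (XX n) := {e | ReflTransGen (fun x y => y ∈ lv K n ∧ (Ls n).near x y) c e} with hA
    have hnear : ∀ e ∈ A, ∀ e' ∈ lv K n, (Ls n).near e e' → e' ∈ A := by
      intro e he e' he' h
      exact ReflTransGen.tail he ⟨he', h⟩
    set u : Set Th := interior {x | ∃ y ∈ K, y.1 n ∈ A ∧ (Ls n).near (y.1 n) (x.1 n)} with hu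
    set v : Set Th := interior {x | ∃ y ∈ K, y.1 n ∉ A ∧ (Ls n).near (y.1 n) (x.1 n)} with hv
    have hKu : ∀ x ∈ K, x.1 n ∈ A → x ∈ u := by
      intro x hx hxA
      rw [hu, mem_interior_iff_mem_nhds, (nhds_basis_uniformity' th_basis).mem_iff]
      exact ⟨n, trivial, fun y hy => ⟨x, hx, hxA, hy⟩⟩
    have hKv : ∀ x ∈ K, x.1 n ∉ A → x ∈ v := by
      intro x hx hxA
      rw [hv, mem_interior_iff_mem_nhds, (nhds_basis_uniformity' th_basis).mem_iff]
      exact ⟨n, trivial, fun y hy => ⟨x, hx, hxA, hy⟩⟩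
    obtain ⟨a, ha, rfl⟩ := hc
    obtain ⟨b, hb, rfl⟩ := hd
    obtain ⟨x, hx, hxu, hxv⟩ := hpre u v isOpen_interior isOpen_interior
      (by
        intro x hx
        by_cases h : x.1 n ∈ A
        · exact Or.inl (hKu x hx h)
        · exact Or.inr (hKv x hx h))
      ⟨a, ha, hKu a ha ReflTransGen.refl⟩ ⟨b, hb, hKv b hb hcd⟩
    obtain ⟨y, hy, hyA, hyx⟩ := interior_subset hxu
    obtain ⟨z, hz, hzA, hzx⟩ := interior_subset hxv
    have h4 : x.1 n ∈ A := hnear _ hyA _ (mem_image_of_mem _ hx) hyx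
    exact hzA (hnear _ h4 _ (mem_image_of_mem _ hz) (Lev.near_symm hzx))
  · obtain ⟨x, hx, y, hy, hxy⟩ := h3
    obtain ⟨x, rfl⟩ := SeparationQuotient.surjective_mk x
    obtain ⟨y, rfl⟩ := SeparationQuotient.surjective_mk y
    refine ⟨x, hx, y, hy, ?_⟩
    by_contra hcon
    push Not at hcon
    exact hxy (mk_eq.2 hcon)

/-- Preimages of countable sets are countable. -/
theorem countable_preimage {S : Set MM} (hS : S.Countable) :
    ((SeparationQuotient.mk : Th → MM) ⁻¹' S).Countable := by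
  have h1 : (SeparationQuotient.mk : Th → MM) ⁻¹' S =
      ⋃ s ∈ S, (SeparationQuotient.mk : Th → MM) ⁻¹' {s} := by
    ext x; simp
  rw [h1]
  refine hS.biUnion ?_
  intro s _
  obtain ⟨x, rfl⟩ := SeparationQuotient.surjective_mk s
  by_cases h : ∃ y : Th, x ≠ y ∧ (SeparationQuotient.mk y : MM) = SeparationQuotient.mk x
  · obtain ⟨y, hxy, hy⟩ := h
    refine Set.Countable.mono (s₂ := {x, y}) ?_ (Set.toFinite _).countable
    intro z hz
    by_cases hzx : x = z
    · exact Or.inl hzx.symm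
    · right
      have hz' : (SeparationQuotient.mk z : MM) = SeparationQuotient.mk x := hz
      exact (class_two x y z (mk_eq.1 hy.symm) (mk_eq.1 hz'.symm)
        (mk_eq.1 (hy.trans hz'.symm)) hxy hzx).symm
  · push Not at h
    refine Set.Countable.mono (s₂ := {x}) ?_ (Set.countable_singleton x)
    intro z hz
    by_contra hzx
    exact h z (fun h => hzx h.symm) hz

theorem main :
    ¬ (∀ (X : Type) [MetricSpace X] [CompactSpace X] [ConnectedSpace X],
      (∀ G : Set (Set X), ¬ G.Countable →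
          (∀ K ∈ G, IsCompact K ∧ IsConnected K ∧ K.Nontrivial) →
          ∃ A ∈ G, ∃ B ∈ G, A ≠ B ∧
            ∃ C : Set X, C ⊆ A ∩ B ∧ IsCompact C ∧ IsConnected C ∧ C.Nontrivial) →
      ∃ S : Set X, S.Countable ∧
        ∀ K : Set X, IsCompact K → IsConnected K → K.Nontrivial → (S ∩ K).Nonempty) := by
  intro hmain
  obtain ⟨S, hS, hmeet⟩ := hmain MM (by
    intro G hG hcont
    have hex : ∀ A : Set MM, ∃ q : Σ m, (Ls m).V, A ∈ G → ∃ K' ⊆ (SeparationQuotient.mk : Th → MM) ⁻¹' A,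
        IsCl K' ∧ ∀ j, ∃ D ∈ FamS q.1 q.2 (2 ^ q.1) j, D ⊆ lv K' (q.1 + j) := by
      intro A
      by_cases hA : A ∈ G
      · obtain ⟨h1, h2, h3⟩ := hcont A hA
        obtain ⟨m, v, K', h4, h5, h6⟩ := fat_of_nd (nd_of_cont h1 h2 h3)
        exact ⟨⟨m, v⟩, fun _ => ⟨K', h4, h5, h6⟩⟩
      · exact ⟨⟨0, ()⟩, fun h => absurd h hA⟩
    choose q hq using hex
    have hni : ¬ InjOn q G := by
      intro hinj
      exact hG ((mapsTo_univ q G).countable_of_injOn hinj Set.countable_univ)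
    simp only [InjOn, not_forall] at hni
    obtain ⟨A, hA, B, hB, hAB, hne⟩ := hni
    obtain ⟨K₁, h1, h2, h3⟩ := hq A hA
    obtain ⟨K₂, h4, h5, h6⟩ := hq B hB
    rw [← hAB] at h6
    obtain ⟨K, hK, hK1, hK2⟩ := share h2 h5 h3 h6
    refine ⟨A, hA, B, hB, hne, (SeparationQuotient.mk : Th → MM) '' K, ?_, cont_of_nd hK⟩
    rintro _ ⟨x, hx, rfl⟩
    exact ⟨h1 (hK1 hx), h4 (hK2 hx)⟩)
  obtain ⟨K, hK, hdis⟩ := exists_avoid _ (countable_preimage hS)
  obtain ⟨h1, h2, h3⟩ := cont_of_nd hK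
  obtain ⟨_, hs, x, hx, rfl⟩ := hmeet _ h1 h2 h3
  rw [Set.disjoint_left] at hdis
  exact hdis hx hs

end Pool.Agent.S08340
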